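import Pool.Agent.N230.TP.Nowhere2
import Pool.Agent.TH766.HP.Two

/-!
# The Boolean algebra generated by sparse sets and families satisfying the Hasse principle (helper230)
-/

set_option autoImplicit false

namespace Pool.Agent.N230.TP

open Polynomial Pool.Agent.TH766.HP Pool.Agent.TH783.CE
open Pool.Agent.H527R9.CC (PadicLoc FamLoc)

/-- The Boolean algebra of sets of rational numbers generated by the sparse sets (for example the
thin sets), by the sets of the `x` for which the fibre `V_x` has a rational point, for families of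
projective schemes satisfying the Hasse principle, by the local conditions at single primes, and by
the conjunctions of local conditions at the real place and at the primes outside `Q`. -/
inductive AlgT (Q : Set ℕ) : Set ℚ → Prop
  | sparse (T : Set ℚ) (h : Sparse T) : AlgT Q T
  | family {n r : ℕ} (F : Fin r → MvPolynomial (Fin n) ℚ[X]) (hF : Homog F) (h : HasseGen F) :
      AlgT Q {x | HasPoint ℚ F x}
  | padic (q : ℕ) (hq : q.Prime) (D : Set ℚ) (h : PadicLoc q D) : AlgT Q D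
  | loc (D : Set ℚ) (h : FamLoc Q D) : AlgT Q D
  | compl (D : Set ℚ) (h : AlgT Q D) : AlgT Q Dᶜ
  | inter (D E : Set ℚ) (hD : AlgT Q D) (hE : AlgT Q E) : AlgT Q (D ∩ E)

theorem AlgT.union {Q : Set ℕ} {D E : Set ℚ} (hD : AlgT Q D) (hE : AlgT Q E) : AlgT Q (D ∪ E) := by
  have h := AlgT.compl _ (AlgT.inter _ _ (AlgT.compl _ hD) (AlgT.compl _ hE))
  rwa [Set.compl_inter, compl_compl, compl_compl] at h

theorem algT_of_alg {Q : Set ℕ} {D : Set ℚ} (h : Alg Q D) : AlgT Q D := by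
  induction h with
  | family F hF h => exact AlgT.family F hF h
  | padic q hq D h => exact AlgT.padic q hq D h
  | loc D h => exact AlgT.loc D h
  | compl D _ ih => exact AlgT.compl D ih
  | inter D E _ _ ihD ihE => exact AlgT.inter D E ihD ihE

theorem alg_fin' (Q : Set ℕ) (A : Set ℚ) (hA : AlgT Q A) : ∀ a1 b1 : ℤ, 0 < b1 →
    ∃ (a0 b0 : ℤ), 0 < b0 ∧ b1 ∣ b0 ∧ b1 ∣ a0 - a1 ∧ ∃ (r : ℕ) (S : Fin r → Set ℚ),
      (∀ i, Nice Q (S i)) ∧ ∀ x y : ℚ, x ∈ Cls a0 b0 → y ∈ Cls a0 b0 →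
        (∀ i, (x ∈ S i ↔ y ∈ S i)) → (x ∈ A ↔ y ∈ A) := by
  induction hA with
  | sparse T h =>
    intro a1 b1 hb1
    obtain ⟨a0, b0, hb0, h1, h2, hfin⟩ := h a1 b1 hb1
    refine ⟨a0, b0, hb0, h1, h2, 1, fun _ => T ∩ Cls a0 b0, fun _ => nice_finite Q _ hfin,
      fun x y hx hy hxy => ?_⟩
    have h3 := hxy 0
    simp only [Set.mem_inter_iff, hx, hy, and_true] at h3
    exact h3
  | family F hF h =>
    intro a1 b1 hb1
    obtain ⟨a0, b0, hb0, h1, h2, hfin⟩ := h a1 b1 hb1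
    refine ⟨a0, b0, hb0, h1, h2, 1, fun _ => {x | HasPoint ℚ F x} ∩ Cls a0 b0,
      fun _ => nice_family Q F hF a0 b0 hb0 hfin, fun x y hx hy hxy => ?_⟩
    have h3 := hxy 0
    simp only [Set.mem_inter_iff, hx, hy, and_true] at h3
    exact h3
  | padic q hq D h =>
    intro a1 b1 hb1
    exact ⟨a1, b1, hb1, dvd_rfl, by simp, 1, fun _ => D, fun _ => nice_padic Q q hq D h,
      fun x y _ _ h => h 0⟩
  | loc D h =>
    intro a1 b1 hb1
    exact ⟨a1, b1, hb1, dvd_rfl, by simp, 1, fun _ => D, fun _ => nice_loc Q D h,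
      fun x y _ _ h => h 0⟩
  | compl D _ ih =>
    intro a1 b1 hb1
    obtain ⟨a0, b0, hb0, h1, h2, r, S, hS, h3⟩ := ih a1 b1 hb1
    exact ⟨a0, b0, hb0, h1, h2, r, S, hS, fun x y hx hy h => not_congr (h3 x y hx hy h)⟩
  | inter D E _ _ ihD ihE =>
    intro a1 b1 hb1
    obtain ⟨a0, b0, hb0, h1, h2, r, S, hS, h3⟩ := ihD a1 b1 hb1
    obtain ⟨a0', b0', hb0', h1', h2', r', S', hS', h3'⟩ := ihE a0 b0 hb0
    have hsub := Cls_mono hb0' h1' h2'
    refine ⟨a0', b0', hb0', h1.trans h1', ?_, r + r', Fin.append S S', fun i => ?_,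
      fun x y hx hy h => ?_⟩
    · have : a0' - a1 = (a0' - a0) + (a0 - a1) := by ring
      rw [this]
      exact dvd_add (h1.trans h2') h2
    · refine Fin.addCases (fun i => ?_) (fun i => ?_) i
      · rw [Fin.append_left]; exact hS i
      · rw [Fin.append_right]; exact hS' i
    · refine and_congr (h3 x y (hsub hx) (hsub hy) fun i => ?_) (h3' x y hx hy fun i => ?_)
      · have := h (Fin.castAdd r' i)
        rwa [Fin.append_left] at this
      · have := h (Fin.natAdd r i)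
        rwa [Fin.append_right] at this

/-- A set of the algebra all of whose elements are integers is nowhere dense in the profinite
topology. -/
theorem main' (Q : Set ℕ) (hQ : Rich Q) (A : Set ℚ) (hA : AlgT Q A)
    (hAZ : A ⊆ Set.range fun n : ℤ => (n : ℚ)) (a1 b1 : ℤ) (hb1 : 0 < b1) :
    ∃ a b : ℤ, 0 < b ∧ b1 ∣ b ∧ b1 ∣ a - a1 ∧ ∀ n : ℤ, b ∣ n - a → (n : ℚ) ∉ A := by
  by_contra hcon
  push Not at hcon
  obtain ⟨a0, b0, hb0, h1, h2, r, S, hS, hdet⟩ := alg_fin' Q A hA a1 b1 hb1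
  obtain ⟨x, hx, y, ⟨hyA, hyC⟩, hyx⟩ := core Q hQ (r + 1) (Fin.cons (Cls a0 b0) S)
    (fun i => by
      refine Fin.cases ?_ (fun i => ?_) i
      · rw [Fin.cons_zero]; exact nice_cls Q a0 b0 hb0
      · rw [Fin.cons_succ]; exact hS i)
    {v | ∃ y, (y ∈ A ∧ y ∈ Cls a0 b0) ∧
      (fun i => y ∈ (Fin.cons (Cls a0 b0) S : Fin (r + 1) → Set ℚ) i) = v} a0 b0 hb0
    (fun a b hb h3 h4 => by
      obtain ⟨n, hn1, hn2⟩ := hcon a b hb (h1.trans h3) (by
        have : a - a1 = (a - a0) + (a0 - a1) := by ring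
        rw [this]
        exact dvd_add (h1.trans h4) h2)
      refine ⟨n, hn1, n, ⟨hn2, int_mem_Cls ?_⟩, rfl⟩
      have : n - a0 = (n - a) + (a - a0) := by ring
      rw [this]
      exact dvd_add (h3.trans hn1) h4)
  have hiff : ∀ i, (y ∈ (Fin.cons (Cls a0 b0) S : Fin (r + 1) → Set ℚ) i ↔
      x ∈ (Fin.cons (Cls a0 b0) S : Fin (r + 1) → Set ℚ) i) := fun i =>
    (congrFun hyx i).to_iff
  have hxC : x ∈ Cls a0 b0 := by
    have := hiff 0
    rw [Fin.cons_zero] at this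
    exact this.1 hyC
  have hxA : x ∈ A := (hdet x y hxC hyC fun i => by
    have := hiff i.succ
    rw [Fin.cons_succ] at this
    exact this.symm).2 hyA
  obtain ⟨l, hl⟩ := hAZ hxA
  exact hx l hl.symm

/-- A set of the algebra all of whose elements are integral at the primes of `Q` is nowhere dense in
the integers. -/
theorem main_pole (Q : Set ℕ) (hQ : Rich Q) (A : Set ℚ) (hA : AlgT Q A)
    (hAQ : ∀ x ∈ A, ∀ p : ℕ, p.Prime → p ∈ Q → padicNorm p x ≤ 1) (a1 b1 : ℤ) (hb1 : 0 < b1) :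
    ∃ a b : ℤ, 0 < b ∧ b1 ∣ b ∧ b1 ∣ a - a1 ∧ ∀ n : ℤ, b ∣ n - a → (n : ℚ) ∉ A := by
  obtain ⟨a, b, hb, h1, h2, h3⟩ := main' Q hQ _
    (AlgT.inter _ _ hA (algT_of_alg (ring_mem Q))) (by
      rintro x ⟨hx1, hx2⟩
      apply int_of_norm
      intro p hp
      by_cases hpQ : p ∈ Q
      · exact hAQ x hx1 p hp hpQ
      · exact hx2 p hp hpQ) a1 b1 hb1
  refine ⟨a, b, hb, h1, h2, fun n hn hnA => h3 n hn ⟨hnA, fun p hp _ => ?_⟩⟩
  have : Fact p.Prime := ⟨hp⟩
  exact padicNorm.of_int n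

end Pool.Agent.N230.TP
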