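import Pool.Agent.R847.QB.Meyer
import Pool.Agent.R847.QB.Iso
import Pool.Agent.R847.QB.Dir
import Pool.Agent.R847.QB.Mat
import Pool.Agent.H527R9.CC.T_HM2

/-!
# The theorem of Hasse and Minkowski for diagonal forms over `ℚ` (helper230)
-/

set_option autoImplicit false

namespace Pool.Agent.N230.TP

open Pool.Agent.R847.QB
open Pool.Agent.W313.BMX (Splits splits_swap splits_comm splits_mul_sq splits_neg_mul)

/-- the diagonal form is isotropic -/
def IsoD (F : Type) [Field F] {r : ℕ} (a : Fin r → F) : Prop :=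
  ∃ x : Fin r → F, x ≠ 0 ∧ ∑ i, a i * x i ^ 2 = 0

variable {F : Type} [Field F]

theorem isoD_scale {r : ℕ} {a b c : Fin r → F} (hc : ∀ i, c i ≠ 0)
    (h : ∀ i, a i = b i * c i ^ 2) (ha : IsoD F a) : IsoD F b := by
  obtain ⟨x, hx, h0⟩ := ha
  refine ⟨fun i => c i * x i, ?_, ?_⟩
  · intro hz
    apply hx
    funext i
    have := congrFun hz i
    simpa [hc i] using this
  · rw [← h0]
    refine Finset.sum_congr rfl fun i _ => ?_
    rw [h i]
    ring

theorem splits_sq_left (t b : F) : Splits (t ^ 2) b :=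
  ⟨1, 0, t, Or.inl one_ne_zero, by ring⟩

theorem sq_of_zero {a b x y : F} (ha : a ≠ 0) (hb : b ≠ 0) (h : a * x ^ 2 + b * y ^ 2 = 0)
    (hxy : x ≠ 0 ∨ y ≠ 0) : ∃ t : F, -(a * b) = t ^ 2 := by
  have hy : y ≠ 0 := by
    rintro rfl
    have h1 : a * x ^ 2 = 0 := by linear_combination h
    rcases mul_eq_zero.1 h1 with h2 | h2
    · exact ha h2
    · have : x = 0 := pow_eq_zero_iff two_ne_zero |>.1 h2
      rcases hxy with h3 | h3
      · exact h3 this
      · exact h3 rfl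
  refine ⟨a * x / y, ?_⟩
  field_simp
  linear_combination -h

theorem split4 [CharZero F] (a : Fin 4 → F) (ha : ∀ i, a i ≠ 0) (h : IsoD F a) :
    ∃ c : F, c ≠ 0 ∧ Splits (-(a 0 * a 1)) (a 0 * c) ∧ Splits (-(a 2 * a 3)) (-(a 2 * c)) := by
  obtain ⟨x, hx, h0⟩ := h
  rw [Fin.sum_univ_four] at h0
  by_cases hs : a 0 * x 0 ^ 2 + a 1 * x 1 ^ 2 = 0
  · have hs' : a 2 * x 2 ^ 2 + a 3 * x 3 ^ 2 = 0 := by linear_combination h0 - hs
    by_cases h01 : x 0 ≠ 0 ∨ x 1 ≠ 0
    · obtain ⟨t, ht⟩ := sq_of_zero (ha 0) (ha 1) hs h01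
      refine ⟨-a 2, neg_ne_zero.2 (ha 2), by rw [ht]; exact splits_sq_left _ _, ?_⟩
      have h1 := splits_of_rep (a := a 2) (b := a 3) (c := a 2) (x := 1) (y := 0) (by ring)
      rw [show -(a 2 * -a 2) = a 2 * a 2 by ring]
      exact h1
    · push Not at h01
      have h23 : x 2 ≠ 0 ∨ x 3 ≠ 0 := by
        by_contra hc
        push Not at hc
        apply hx
        funext i
        fin_cases i
        · exact h01.1
        · exact h01.2
        · exact hc.1
        · exact hc.2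
      obtain ⟨t, ht⟩ := sq_of_zero (ha 2) (ha 3) hs' h23
      refine ⟨a 0, ha 0, splits_of_rep (x := 1) (y := 0) (by ring), ?_⟩
      rw [ht]
      exact splits_sq_left _ _
  · refine ⟨a 0 * x 0 ^ 2 + a 1 * x 1 ^ 2, hs, splits_of_rep rfl, ?_⟩
    have h1 := splits_of_rep (a := a 2) (b := a 3) (x := x 2) (y := x 3) rfl
    rw [show -(a 2 * (a 0 * x 0 ^ 2 + a 1 * x 1 ^ 2)) = a 2 * (a 2 * x 2 ^ 2 + a 3 * x 3 ^ 2) by
      linear_combination (-a 2) * h0]
    exact h1

/-- four variables -/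
theorem hm4 (a : Fin 4 → ℤ) (ha : ∀ i, a i ≠ 0) (hr : IsoD ℝ (fun i => (a i : ℝ)))
    (hp : ∀ (p : ℕ) [Fact p.Prime], IsoD ℚ_[p] (fun i => (a i : ℚ_[p]))) :
    IsoD ℚ (fun i => (a i : ℚ)) := by
  classical
  set P : ℤ := 2 * (a 0 * a 1 * a 2 * a 3) with hP
  have hP0 : P ≠ 0 := by
    rw [hP]
    exact mul_ne_zero two_ne_zero (mul_ne_zero (mul_ne_zero (mul_ne_zero (ha 0) (ha 1)) (ha 2))
      (ha 3))
  have hfin : {p : Nat.Primes | ((p : ℕ) : ℤ) ∣ P}.Finite := by
    refine Set.Finite.of_finite_image (f := fun p : Nat.Primes => (p : ℕ)) ?_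
      (fun _ _ _ _ h => Subtype.ext h)
    refine (Set.finite_le_nat P.natAbs).subset ?_
    rintro _ ⟨p, hp, rfl⟩
    have h1 : (p : ℕ) ∣ P.natAbs := Int.natCast_dvd.1 hp
    exact Nat.le_of_dvd (Int.natAbs_pos.2 hP0) h1
  set T : Finset Nat.Primes := hfin.toFinset with hT
  have hnT : ∀ p : Nat.Primes, p ∉ T → ¬ ((p : ℕ) : ℤ) ∣ P := by
    intro p hp h
    exact hp ((Set.Finite.mem_toFinset hfin).2 h)
  have hTa : ∀ p : Nat.Primes, p ∉ T → (p : ℕ) ≠ 2 ∧ ∀ i, ¬ ((p : ℕ) : ℤ) ∣ a i := by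
    intro p hp
    have h := hnT p hp
    refine ⟨fun h2 => h ?_, fun i hi => h ?_⟩
    · rw [h2, hP]; exact Dvd.intro _ rfl
    · rw [hP]
      refine Dvd.dvd.mul_left ?_ _
      fin_cases i
      · exact ((hi.mul_right _).mul_right _).mul_right _
      · exact ((hi.mul_left _).mul_right _).mul_right _
      · exact (hi.mul_left _).mul_right _
      · exact hi.mul_left _
  have cast0 : ∀ (p : Nat.Primes) (i : Fin 4), ((a i : ℤ) : ℚ_[(p : ℕ)]) ≠ 0 := fun p i =>
    Int.cast_ne_zero.2 (ha i)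
  have hloc : ∀ p : Nat.Primes, ∃ c : ℤ, c ≠ 0 ∧
      Splits (-((a 0 : ℚ_[(p : ℕ)]) * a 1)) ((a 0 : ℚ_[(p : ℕ)]) * c) ∧
      Splits (-((a 2 : ℚ_[(p : ℕ)]) * a 3)) (-((a 2 : ℚ_[(p : ℕ)]) * c)) := by
    intro p
    obtain ⟨c, hc, h1, h2⟩ := split4 (fun i => ((a i : ℤ) : ℚ_[(p : ℕ)])) (cast0 p) (hp (p : ℕ))
    obtain ⟨c', hc', hcc⟩ := exists_int_class (p : ℕ) c hc
    have k1 : ((c' : ℤ) : ℚ_[(p : ℕ)]) ≠ 0 := Int.cast_ne_zero.2 hc'
    have sqm : ∀ {x y z : ℚ_[(p : ℕ)]}, IsSquare (y * z) → IsSquare ((x * y) * (x * z)) := by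
      rintro x y z ⟨r, hr⟩
      exact ⟨x * r, by linear_combination x ^ 2 * hr⟩
    have sqm' : ∀ {x y z : ℚ_[(p : ℕ)]}, IsSquare (y * z) → IsSquare ((-(x * y)) * (-(x * z))) := by
      rintro x y z ⟨r, hr⟩
      exact ⟨x * r, by linear_combination x ^ 2 * hr⟩
    refine ⟨c', hc', ?_, ?_⟩
    · exact (splits_class (mul_ne_zero (cast0 p 0) hc) (mul_ne_zero (cast0 p 0) k1) (sqm hcc)).1 h1
    · exact (splits_class (neg_ne_zero.2 (mul_ne_zero (cast0 p 2) hc))
        (neg_ne_zero.2 (mul_ne_zero (cast0 p 2) k1)) (sqm' hcc)).1 h2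
  choose g hg L1 L2 using hloc
  have hreal : ∃ s : ℤ, (s = 1 ∨ s = -1) ∧ (0 < -(a 0 * a 1) ∨ 0 < a 0 * s) ∧
      (0 < -(a 2 * a 3) ∨ 0 < -(a 2 * s)) := by
    have hr0 : ∀ i, ((a i : ℤ) : ℝ) ≠ 0 := fun i => Int.cast_ne_zero.2 (ha i)
    obtain ⟨c, hc, h1, h2⟩ := split4 (fun i => ((a i : ℤ) : ℝ)) hr0 hr
    rw [splits_real_iff (neg_ne_zero.2 (mul_ne_zero (hr0 0) (hr0 1))) (mul_ne_zero (hr0 0) hc)] at h1
    rw [splits_real_iff (neg_ne_zero.2 (mul_ne_zero (hr0 2) (hr0 3)))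
      (neg_ne_zero.2 (mul_ne_zero (hr0 2) hc))] at h2
    rcases lt_or_gt_of_ne hc with hneg | hpos
    · refine ⟨-1, Or.inr rfl, ?_, ?_⟩
      · rcases h1 with h | h
        · exact Or.inl (by exact_mod_cast h)
        · right
          have : ((a 0 : ℤ) : ℝ) < 0 := by
            by_contra hcon
            push Not at hcon
            nlinarith
          have h3 : a 0 < 0 := by exact_mod_cast this
          omega
      · rcases h2 with h | h
        · exact Or.inl (by exact_mod_cast h)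
        · right
          have : (0 : ℝ) < ((a 2 : ℤ) : ℝ) := by
            by_contra hcon
            push Not at hcon
            nlinarith
          have h3 : 0 < a 2 := by exact_mod_cast this
          omega
    · refine ⟨1, Or.inl rfl, ?_, ?_⟩
      · rcases h1 with h | h
        · exact Or.inl (by exact_mod_cast h)
        · right
          have : (0 : ℝ) < ((a 0 : ℤ) : ℝ) := by
            by_contra hcon
            push Not at hcon
            nlinarith
          have h3 : 0 < a 0 := by exact_mod_cast this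
          omega
      · rcases h2 with h | h
        · exact Or.inl (by exact_mod_cast h)
        · right
          have : ((a 2 : ℤ) : ℝ) < 0 := by
            by_contra hcon
            push Not at hcon
            nlinarith
          have h3 : a 2 < 0 := by exact_mod_cast this
          omega
  obtain ⟨s, hs, R1, R2⟩ := hreal
  obtain ⟨c, q, hq, hcs, hcT, hcn⟩ := dir_ T g s hs hg
  have hc0 : c ≠ 0 := by rintro rfl; simp at hcs
  have hcne : ∀ p : Nat.Primes, ((c : ℤ) : ℚ_[(p : ℕ)]) ≠ 0 := fun p => Int.cast_ne_zero.2 hc0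
  have hgcne : ∀ p : Nat.Primes, ((g p : ℤ) : ℚ_[(p : ℕ)]) ≠ 0 := fun p =>
    Int.cast_ne_zero.2 (hg p)
  have hprime : ∀ (p : Nat.Primes) {x y : ℤ}, ¬ ((p : ℕ) : ℤ) ∣ x → ¬ ((p : ℕ) : ℤ) ∣ y →
      ¬ ((p : ℕ) : ℤ) ∣ x * y := by
    intro p x y hx hy h
    rcases (Nat.prime_iff_prime_int.1 p.2).dvd_or_dvd h with h | h
    · exact hx h
    · exact hy h
  have hnegd : ∀ (p : Nat.Primes) {x : ℤ}, ¬ ((p : ℕ) : ℤ) ∣ x → ¬ ((p : ℕ) : ℤ) ∣ -x :=
    fun p x hx h => hx (dvd_neg.1 h)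
  have sgn : ∀ {x s : ℤ}, 0 < x * s → (s = 1 ∨ s = -1) → ∀ b : ℤ, 0 < b * s → 0 < b * x := by
    rintro x s h1 (rfl | rfl) b h2
    · simp at h1 h2
      exact mul_pos h2 h1
    · simp at h1 h2
      exact mul_pos_of_neg_of_neg h2 h1
  have S1 : Splits ((-(a 0 * a 1) : ℤ) : ℚ) ((a 0 * c : ℤ) : ℚ) := by
    refine global (neg_ne_zero.2 (mul_ne_zero (ha 0) (ha 1))) (mul_ne_zero (ha 0) hc0) q ?_ ?_
    · rw [splits_real_iff]
      · rcases R1 with h | h
        · exact Or.inl (by exact_mod_cast h)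
        · exact Or.inr (by exact_mod_cast sgn hcs hs (a 0) h)
      · exact_mod_cast neg_ne_zero.2 (mul_ne_zero (ha 0) (ha 1))
      · exact_mod_cast mul_ne_zero (ha 0) hc0
    · intro p hpq
      by_cases hpT : p ∈ T
      · have h := hcT p hpT
        push_cast at h ⊢
        refine (splits_class (mul_ne_zero (cast0 p 0) (hcne p)) (mul_ne_zero (cast0 p 0) (hgcne p))
          ?_).2 (L1 p)
        obtain ⟨r, hr⟩ := h
        exact ⟨a 0 * r, by linear_combination (a 0 : ℚ_[(p : ℕ)]) ^ 2 * hr⟩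
      · obtain ⟨k1, k2⟩ := hTa p hpT
        exact splits_units k1 (hnegd p (hprime p (k2 0) (k2 1))) (hprime p (k2 0) (hcn p hpT hpq))
  have S2 : Splits ((-(a 2 * a 3) : ℤ) : ℚ) ((-(a 2 * c) : ℤ) : ℚ) := by
    refine global (neg_ne_zero.2 (mul_ne_zero (ha 2) (ha 3)))
      (neg_ne_zero.2 (mul_ne_zero (ha 2) hc0)) q ?_ ?_
    · rw [splits_real_iff]
      · rcases R2 with h | h
        · exact Or.inl (by exact_mod_cast h)
        · have h' : 0 < (-a 2) * s := by linarith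
          have := sgn hcs hs (-a 2) h'
          exact Or.inr (by
            have h2 : 0 < -(a 2 * c) := by linarith
            exact_mod_cast h2)
      · exact_mod_cast neg_ne_zero.2 (mul_ne_zero (ha 2) (ha 3))
      · exact_mod_cast neg_ne_zero.2 (mul_ne_zero (ha 2) hc0)
    · intro p hpq
      by_cases hpT : p ∈ T
      · have h := hcT p hpT
        push_cast at h ⊢
        refine (splits_class (neg_ne_zero.2 (mul_ne_zero (cast0 p 2) (hcne p)))
          (neg_ne_zero.2 (mul_ne_zero (cast0 p 2) (hgcne p))) ?_).2 (L2 p)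
        obtain ⟨r, hr⟩ := h
        exact ⟨a 2 * r, by linear_combination (a 2 : ℚ_[(p : ℕ)]) ^ 2 * hr⟩
      · obtain ⟨k1, k2⟩ := hTa p hpT
        exact splits_units k1 (hnegd p (hprime p (k2 2) (k2 3)))
          (hnegd p (hprime p (k2 2) (hcn p hpT hpq)))
  have q0 : ∀ i, ((a i : ℤ) : ℚ) ≠ 0 := fun i => Int.cast_ne_zero.2 (ha i)
  push_cast at S1 S2
  obtain ⟨x0, x1, h01⟩ := rep_of_splits (a := ((a 0 : ℤ) : ℚ)) (b := ((a 1 : ℤ) : ℚ))
    (c := ((c : ℤ) : ℚ)) (q0 0) (q0 1) S1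
  obtain ⟨x2, x3, h23⟩ := rep_of_splits (a := ((a 2 : ℤ) : ℚ)) (b := ((a 3 : ℤ) : ℚ))
    (c := -((c : ℤ) : ℚ)) (q0 2) (q0 3) (by
      rw [show ((a 2 : ℤ) : ℚ) * -((c : ℤ) : ℚ) = -((a 2 : ℤ) * (c : ℤ) : ℚ) by ring]
      exact S2)
  refine ⟨![x0, x1, x2, x3], ?_, ?_⟩
  · intro hz
    have e0 := congrFun hz 0
    have e1 := congrFun hz 1
    simp at e0 e1
    rw [e0, e1] at h01
    apply hc0
    have : ((c : ℤ) : ℚ) = 0 := by rw [← h01]; ring
    exact_mod_cast this
  · rw [Fin.sum_univ_four]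
    simp
    linear_combination h01 + h23

/-- three variables -/
theorem iso3_iff [CharZero F] (a : Fin 3 → F) (ha : ∀ i, a i ≠ 0) :
    IsoD F a ↔ Splits (-(a 0 * a 2)) (-(a 1 * a 2)) := by
  constructor
  · rintro ⟨x, hx, h0⟩
    rw [Fin.sum_univ_three] at h0
    refine ⟨x 0, x 1, a 2 * x 2, ?_, by linear_combination (a 2) * h0⟩
    by_contra hc
    push Not at hc
    apply hx
    funext i
    fin_cases i
    · exact hc.1
    · exact hc.2.1
    · have := hc.2.2
      simpa [ha 2] using this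
  · rintro ⟨x, y, z, h0, h1⟩
    refine ⟨![x, y, z / a 2], ?_, ?_⟩
    · intro hz
      have e0 := congrFun hz 0
      have e1 := congrFun hz 1
      have e2 := congrFun hz 2
      simp [ha 2] at e0 e1 e2
      rcases h0 with h | h | h
      · exact h e0
      · exact h e1
      · exact h e2
    · rw [Fin.sum_univ_three]
      simp
      have := ha 2
      field_simp
      linear_combination h1

/-- **The theorem of Hasse and Minkowski** for diagonal forms with integer coefficients -/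
theorem hm_int : ∀ (r : ℕ) (a : Fin r → ℤ), (∀ i, a i ≠ 0) → IsoD ℝ (fun i => (a i : ℝ)) →
    (∀ (p : ℕ) [Fact p.Prime], IsoD ℚ_[p] (fun i => (a i : ℚ_[p]))) → IsoD ℚ (fun i => (a i : ℚ))
  | 0, a, ha, hr, hp => by
    obtain ⟨x, hx, -⟩ := hr
    exact absurd (Subsingleton.elim _ _) hx
  | 1, a, ha, hr, hp => by
    exfalso
    obtain ⟨x, hx, h0⟩ := hr
    rw [Fin.sum_univ_one] at h0
    have h1 : ((a 0 : ℤ) : ℝ) ≠ 0 := Int.cast_ne_zero.2 (ha 0)
    have h2 : x 0 = 0 := by simpa [h1] using h0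
    apply hx
    funext i
    fin_cases i
    exact h2
  | 2, a, ha, hr, hp => by
    have key : ∀ (F : Type) [Field F] [CharZero F], IsoD F (fun i => ((a i : ℤ) : F)) →
        ∃ t : F, -(((a 0 : ℤ) : F) * ((a 1 : ℤ) : F)) = t ^ 2 := by
      rintro F _ _ ⟨x, hx, h0⟩
      rw [Fin.sum_univ_two] at h0
      refine sq_of_zero (Int.cast_ne_zero.2 (ha 0)) (Int.cast_ne_zero.2 (ha 1)) h0 ?_
      by_contra hc
      push Not at hc
      apply hx
      funext i
      fin_cases i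
      · exact hc.1
      · exact hc.2
    have hne : (-(a 0 * a 1 : ℤ) : ℚ) ≠ 0 := by
      exact_mod_cast neg_ne_zero.2 (mul_ne_zero (ha 0) (ha 1))
    obtain ⟨t, ht⟩ := key ℝ hr
    have hpos : (0 : ℚ) < -(a 0 * a 1 : ℤ) := by
      have h1 : (0 : ℝ) < t ^ 2 := by
        rcases (sq_nonneg t).lt_or_eq with h | h
        · exact h
        · exfalso
          rw [← ht] at h
          have h2 : ((a 0 * a 1 : ℤ) : ℝ) = 0 := by push_cast; linarith
          exact mul_ne_zero (ha 0) (ha 1) (by exact_mod_cast h2)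
      rw [← ht] at h1
      have h3 : (0 : ℝ) < ((-(a 0 * a 1) : ℤ) : ℝ) := by push_cast; exact h1
      have h4 : 0 < -(a 0 * a 1) := by exact_mod_cast h3
      exact_mod_cast h4
    obtain ⟨u, hu⟩ := Pool.Agent.H527R9.CC.t_HM2 _ hne hpos (fun p _ => by
      obtain ⟨t, ht⟩ := key ℚ_[p] (hp p)
      refine ⟨t, ?_⟩
      push_cast
      rw [ht]
      ring)
    refine ⟨![u, (a 0 : ℚ)], ?_, ?_⟩
    · intro hz
      have e1 := congrFun hz 1
      simp at e1
      exact ha 0 e1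
    · rw [Fin.sum_univ_two]
      simp
      push_cast at hu
      linear_combination (-(a 0 : ℚ)) * hu
  | 3, a, ha, hr, hp => by
    have f3 : ∀ (F : Type) [Field F] [CharZero F], IsoD F (fun i => ((a i : ℤ) : F)) ↔
        Splits ((-(a 0 * a 2) : ℤ) : F) ((-(a 1 * a 2) : ℤ) : F) := by
      intro F _ _
      rw [iso3_iff _ fun i => Int.cast_ne_zero.2 (ha i)]
      push_cast
      rfl
    rw [f3] at hr ⊢
    refine Pool.Agent.W174.HB.hm_ _ _ (neg_ne_zero.2 (mul_ne_zero (ha 0) (ha 2)))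
      (neg_ne_zero.2 (mul_ne_zero (ha 1) (ha 2))) hr fun p _ => ?_
    rw [← f3]
    exact hp p
  | 4, a, ha, hr, hp => hm4 a ha hr hp
  | (n + 5), a, ha, hr, hp => by
    have hM := mat_ (meyer iso_ dir_) (n + 5) (by omega) (Matrix.diagonal fun i => (a i : ℚ))
      (Matrix.isSymm_diagonal _) (by
        rw [Matrix.det_diagonal]
        exact Finset.prod_ne_zero_iff.2 fun i _ => Int.cast_ne_zero.2 (ha i)) (by
        obtain ⟨x, hx, h0⟩ := hr
        refine ⟨x, hx, ?_⟩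
        rw [← h0, Matrix.diagonal_map (map_zero _)]
        simp only [dotProduct, Matrix.mulVec_diagonal]
        refine Finset.sum_congr rfl fun i _ => ?_
        simp
        ring)
    obtain ⟨w, hw, h0⟩ := hM
    refine ⟨w, hw, ?_⟩
    rw [← h0]
    simp only [dotProduct, Matrix.mulVec_diagonal]
    exact Finset.sum_congr rfl fun i _ => by ring

/-- **The theorem of Hasse and Minkowski** for diagonal forms with rational coefficients -/
theorem hm_rat (r : ℕ) (d : Fin r → ℚ) (hd : ∀ i, d i ≠ 0) (hr : IsoD ℝ (fun i => (d i : ℝ)))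
    (hp : ∀ (p : ℕ) [Fact p.Prime], IsoD ℚ_[p] (fun i => (d i : ℚ_[p]))) : IsoD ℚ d := by
  have hden : ∀ i, ((d i).den : ℚ) ≠ 0 := fun i => by exact_mod_cast (d i).den_nz
  have hnum : ∀ i, d i * (d i).den = (d i).num := fun i => Rat.mul_den_eq_num (d i)
  have e1 : ∀ (F : Type) [Field F] [CharZero F], IsoD F (fun i => (d i : F)) →
      IsoD F (fun i => (((d i).num * (d i).den : ℤ) : F)) := by
    intro F _ _ h
    refine isoD_scale (c := fun i => ((((d i).den : ℚ)⁻¹ : ℚ) : F)) ?_ ?_ h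
    · intro i
      exact_mod_cast inv_ne_zero (hden i)
    · intro i
      have h1 : d i = ((d i).num * (d i).den) * (((d i).den : ℚ)⁻¹) ^ 2 := by
        rw [← hnum i]
        have := hden i
        field_simp
      calc ((d i : ℚ) : F) = (((((d i).num : ℚ) * (d i).den) * (((d i).den : ℚ)⁻¹) ^ 2 : ℚ) : F) :=
            congrArg _ h1
        _ = _ := by push_cast; ring
  have h := hm_int r (fun i => (d i).num * (d i).den)
    (fun i => mul_ne_zero (Rat.num_ne_zero.2 (hd i)) (by exact_mod_cast (d i).den_nz))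
    (by simpa using e1 ℝ hr) (fun p _ => by simpa using e1 ℚ_[p] (hp p))
  refine isoD_scale (c := fun i => ((d i).den : ℚ)) hden ?_ h
  intro i
  push_cast
  rw [← hnum i]
  ring

end Pool.Agent.N230.TP
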