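import Pool.Agent.N230.TP.AlgT
import Pool.Agent.R565.QR.Pole

/-!
# Rational numbers without pole (helper230)
-/

set_option autoImplicit false

namespace Pool.Agent.N230.TP

open IsDedekindDomain NumberField Pool.Agent.TH783.CE Pool.Agent.TH766.HP

theorem nopole_norm {Q : Set ℕ} {x : ℚ} (hx : x ∈ NoPole ℚ Q) {p : ℕ} (hp : p.Prime)
    (hpQ : p ∈ Q) : padicNorm p x ≤ 1 := by
  have : Fact p.Prime := ⟨hp⟩
  obtain ⟨v, hv⟩ := Pool.Agent.R565.QR.exists_above hp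
  have h := hx v ⟨p, hp, hpQ, hv⟩
  have hden : ¬ p ∣ x.den := by
    rintro ⟨c, hc⟩
    have h1 : (x.den : 𝓞 ℚ) ∈ v.asIdeal := by
      rw [hc]
      push_cast
      exact v.asIdeal.mul_mem_right _ hv
    have h2 : (x.num : 𝓞 ℚ) ∉ v.asIdeal := by
      intro h3
      have h4 : IsCoprime x.num (x.den : ℤ) := by
        rw [Int.isCoprime_iff_gcd_eq_one]
        exact x.reduced
      obtain ⟨u, w, huw⟩ := h4
      have h5 : ((u : 𝓞 ℚ)) * (x.num : 𝓞 ℚ) + (w : 𝓞 ℚ) * (x.den : 𝓞 ℚ) = 1 := by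
        exact_mod_cast congrArg (fun z : ℤ => (z : 𝓞 ℚ)) huw
      apply v.isPrime.ne_top
      rw [Ideal.eq_top_iff_one, ← h5]
      exact v.asIdeal.add_mem (v.asIdeal.mul_mem_left _ h3) (v.asIdeal.mul_mem_left _ h1)
    have h6 : v.valuation ℚ (x.den : ℚ) < 1 := by
      have := (v.valuation_lt_one_iff_mem (K := ℚ) (x.den : 𝓞 ℚ)).2 h1
      simpa using this
    have h7 : ¬ v.valuation ℚ (x.num : ℚ) < 1 := by
      intro h8
      apply h2
      apply (v.valuation_lt_one_iff_mem (K := ℚ) (x.num : 𝓞 ℚ)).1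
      simpa using h8
    apply h7
    have h8 : (x.num : ℚ) = x * x.den := (Rat.mul_den_eq_num x).symm
    rw [h8, map_mul]
    exact (mul_le_of_le_one_left' h).trans_lt h6
  have h1 : padicNorm p (x.den : ℚ) = 1 := by
    rw [padicNorm.nat_eq_one_iff]
    exact hden
  have h7 : x = (x.num : ℚ) / (x.den : ℚ) := (Rat.num_div_den x).symm
  rw [h7, padicNorm.div, h1, div_one]
  exact padicNorm.of_int _

/-- sets of the algebra whose elements have no pole at the primes of `Q` -/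
theorem main_nopole (Q : Set ℕ) (hQ : Rich Q) (A : Set ℚ) (hA : AlgT Q A)
    (hAQ : A ⊆ NoPole ℚ Q) (a1 b1 : ℤ) (hb1 : 0 < b1) :
    ∃ a b : ℤ, 0 < b ∧ b1 ∣ b ∧ b1 ∣ a - a1 ∧ ∀ n : ℤ, b ∣ n - a → (n : ℚ) ∉ A :=
  main_pole Q hQ A hA (fun _ hx _ hp hpQ => nopole_norm (hAQ hx) hp hpQ) a1 b1 hb1

end Pool.Agent.N230.TP
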