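import Pool.Agent.N230.TP.OneQ
import Pool.Agent.N230.TP.PoleQ
import Pool.Agent.Results.MP_a59382_lc.RankFive

/-!
# Removing the primes at which `b` has a pole (helper230)

The proof of `exists_bound` follows the proof by helper455 of `Pool.Agent.N455.PR.exists_bound`.
-/

set_option autoImplicit false

namespace Pool.Agent.N230.TP

open NumberField IsDedekindDomain Matrix Pool.Agent.TH783.CE Pool.Agent.TH766.HP
open Pool.Agent.H527R9.CC (PadicLoc FamLoc)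
open Pool.Agent.Results.MP_a59382_lc.CubicEquations (PoleRel)
open Pool.Agent.R565.QR (spec Solvable)

/-- `b` has no pole above the large primes -/
theorem exists_bound (b : ℚ) : ∃ N : ℕ, ∀ p : ℕ, p.Prime → N < p →
    ∀ v : HeightOneSpectrum (𝓞 ℚ), ((p : 𝓞 ℚ) ∈ v.asIdeal) → v.valuation ℚ b ≤ 1 := by
  refine ⟨b.den, fun p hp hNp v hv => ?_⟩
  have h1 : v.valuation ℚ (b.num : ℚ) ≤ 1 := by
    have h6 := v.valuation_le_one (K := ℚ) (b.num : 𝓞 ℚ)
    simpa using h6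
  have h2 : (b.num : ℚ) = b * b.den := (Rat.mul_den_eq_num b).symm
  rw [h2, map_mul] at h1
  have h3 : v.valuation ℚ (b.den : ℚ) = 1 := by
    have h4 : (b.den : ℚ) = algebraMap (𝓞 ℚ) ℚ (b.den : 𝓞 ℚ) := by simp
    rw [h4]
    refine (HeightOneSpectrum.valuation_eq_one_iff_notMem (K := ℚ) v).2 ?_
    intro hmv
    have hcop : IsCoprime (b.den : ℤ) (p : ℤ) := by
      rw [Nat.isCoprime_iff_coprime]
      refine ((Nat.Prime.coprime_iff_not_dvd hp).2 fun hdvd => ?_).symm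
      have := Nat.le_of_dvd b.den_pos hdvd
      omega
    obtain ⟨x, y, hxy⟩ := hcop
    apply v.isPrime.ne_top
    rw [Ideal.eq_top_iff_one]
    have h5 : (1 : 𝓞 ℚ) = (x : 𝓞 ℚ) * (b.den : 𝓞 ℚ) + (y : 𝓞 ℚ) * ((p : ℕ) : 𝓞 ℚ) := by
      have := congrArg (fun z : ℤ => (z : 𝓞 ℚ)) hxy
      push_cast at this
      exact this.symm
    rw [h5]
    exact v.asIdeal.add_mem (v.asIdeal.mul_mem_left _ hmv) (v.asIdeal.mul_mem_left _ hv)
  rw [h3, mul_one] at h1
  exact h1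

/-- A rich set of primes without the primes below the poles of `b`. -/
theorem rich_sub {Q : Set ℕ} (hQ : Rich Q) (b : ℚ) :
    ∃ Q' : Set ℕ, Q' ⊆ Q ∧ Rich Q' ∧ b ∈ NoPole ℚ Q' := by
  obtain ⟨N, hN⟩ := exists_bound b
  refine ⟨{p | p ∈ Q ∧ N < p}, fun p hp => hp.1, ?_, ?_⟩
  · intro s M hs
    obtain ⟨p, hp, h1, h2, h3⟩ := hQ s (max M N) hs
    exact ⟨p, hp, ⟨h1, (le_max_right _ _).trans_lt h2⟩, (le_max_left _ _).trans_lt h2, h3⟩
  · rintro v ⟨p, hp, hpQ, hpv⟩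
    exact hN p hp hpQ.2 v hpv

theorem famLoc_mono {Q Q' : Set ℕ} (h : Q' ⊆ Q) {D : Set ℚ} (hD : FamLoc Q D) : FamLoc Q' D := by
  classical
  obtain ⟨R, P, F, hF, hR, hP, rfl⟩ := hD
  refine ⟨R, fun p => if p ∈ Q then Set.univ else P p, F, hF, hR, ?_, ?_⟩
  · intro p hp x hx
    by_cases hpQ : p ∈ Q
    · exact ⟨1, one_pos, fun y _ => by simp [hpQ]⟩
    · simpa [hpQ] using hP p hp x hx
  · ext x
    refine and_congr_right fun _ => ⟨fun hx p hp hpQ' => ?_, fun hx p hp hpQ => ?_⟩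
    · by_cases hpQ : p ∈ Q
      · simp [hpQ]
      · simpa [hpQ] using hx p hp hpQ
    · have := hx p hp (fun hc => hpQ (h hc))
      simpa [hpQ] using this

theorem AlgT.mono {Q Q' : Set ℕ} (h : Q' ⊆ Q) {D : Set ℚ} (hD : AlgT Q D) : AlgT Q' D := by
  induction hD with
  | sparse T h' => exact AlgT.sparse T h'
  | family F hF h' => exact AlgT.family F hF h'
  | padic q hq D h' => exact AlgT.padic q hq D h'
  | loc D h' => exact AlgT.loc D (famLoc_mono h h')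
  | compl D _ ih => exact AlgT.compl D ih
  | inter D E _ _ ihD ihE => exact AlgT.inter D E ihD ihE

theorem poleRel_mono {Q Q' : Set ℕ} (hQ : Q' ⊆ Q) {a b : ℚ} (h : PoleRel ℚ Q a b) :
    PoleRel ℚ Q' a b := by
  rintro v ⟨p, hp, hpQ, hpv⟩ ha
  exact h v ⟨p, hp, hQ hpQ, hpv⟩ ha

theorem noPole_of {Q : Set ℕ} {a b : ℚ} (hb : b ∈ NoPole ℚ Q) (h : PoleRel ℚ Q a b) :
    a ∈ NoPole ℚ Q := by
  intro v hv
  by_contra hcon
  exact absurd (h v hv (not_le.1 hcon)) (not_lt.2 (hb v hv))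

theorem poleRel_int (Q : Set ℕ) (u : ℤ) (b : ℚ) : PoleRel ℚ Q (u : ℚ) b := by
  intro v _ hv'
  exfalso
  have h6 : v.valuation ℚ ((u : 𝓞 ℚ) : ℚ) ≤ 1 := v.valuation_le_one (K := ℚ) (u : 𝓞 ℚ)
  have h7 : ((u : 𝓞 ℚ) : ℚ) = (u : ℚ) := by simp
  rw [h7] at h6
  exact absurd hv' (not_lt.2 h6)

/-- Quadratic equations whose coefficients are polynomials in `a` and `b`. -/
theorem algT_solvable (Q : Set ℕ) {t : ℕ}
    (A : Matrix (Fin (t + 1)) (Fin (t + 1)) (MvPolynomial (Fin 2 ⊕ Fin 0) ℚ)) (hA : A.IsSymm)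
    (b : ℚ) : AlgT Q {a | Solvable A a b} := by
  let φ : MvPolynomial (Fin 2 ⊕ Fin 0) ℚ →+* Polynomial ℚ :=
    (MvPolynomial.aeval (R := ℚ) (Sum.elim ![Polynomial.X, Polynomial.C b] Fin.elim0)).toRingHom
  have hφ : ∀ (a : ℚ) (w : Fin 0 → ℚ) (f : MvPolynomial (Fin 2 ⊕ Fin 0) ℚ),
      (φ f).eval a = MvPolynomial.eval (Sum.elim ![a, b] w) f := by
    intro a w f
    have h : ((Polynomial.evalRingHom a).comp φ) = MvPolynomial.eval (Sum.elim ![a, b] w) := by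
      apply MvPolynomial.ringHom_ext
      · intro r
        simp [φ]
      · rintro (j | j)
        · fin_cases j <;> simp [φ]
        · exact j.elim0
    exact congrFun (congrArg DFunLike.coe h) f
  have h1 := quad_algT Q (A.map φ) (by
    show (A.map φ)ᵀ = _
    rw [← Matrix.transpose_map, hA.eq])
  have h2 : {a | Solvable A a b} = {a | ∃ y : Fin (t + 1) → ℚ, y 0 = 1 ∧
      y ⬝ᵥ ((A.map φ).map (Polynomial.eval a)) *ᵥ y = 0} := by
    ext a
    have h3 : ∀ w : Fin 0 → ℚ, spec A a b w = (A.map φ).map (Polynomial.eval a) := by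
      intro w
      ext i j
      simp only [spec, Matrix.map_apply]
      exact (hφ a w (A i j)).symm
    constructor
    · rintro ⟨w, y, hy0, hy⟩
      rw [h3 w] at hy
      exact ⟨y, hy0, hy⟩
    · rintro ⟨y, hy0, hy⟩
      rw [← h3 Fin.elim0] at hy
      exact ⟨Fin.elim0, y, hy0, hy⟩
  rw [h2]
  exact h1

end Pool.Agent.N230.TP
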