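import Pool.Agent.N230.TP.Wit
import Pool.Agent.R565.QR.Rel

/-!
# Formulas built from equations and quadratic equations with algebraic witnesses (helper230)
-/

set_option autoImplicit false

namespace Pool.Agent.N230.TP

open Polynomial Matrix
open Pool.Agent.TH783.CE (Thin Thin.mono Thin.of_finite Thin.union)
open Pool.Agent.N455.PR (tame_crv num_ex crv eval_crv)
open Pool.Agent.R565.QR (spec Solvable)

theorem AlgT.empty (Q : Set ℕ) : AlgT Q ∅ := AlgT.sparse ∅ (Sparse.of_finite Set.finite_empty)

theorem AlgT.iUnion {Q : Set ℕ} {ι : Type} [Fintype ι] (D : ι → Set ℚ) (h : ∀ i, AlgT Q (D i)) :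
    AlgT Q (⋃ i, D i) := by
  classical
  have key : ∀ s : Finset ι, AlgT Q (⋃ i ∈ s, D i) := by
    intro s
    induction s using Finset.induction_on with
    | empty => simpa using AlgT.empty Q
    | insert i s _ ih =>
      rw [Finset.set_biUnion_insert]
      exact AlgT.union (h i) ih
  simpa using key Finset.univ

/-- Boolean functions of sets of the algebra -/
theorem AlgT.bool {Q : Set ℕ} : ∀ {N : ℕ} (S : Fin N → Set ℚ), (∀ i, AlgT Q (S i)) →
    ∀ B : (Fin N → Prop) → Prop, AlgT Q {a | B (fun i => a ∈ S i)} := by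
  intro N
  induction N with
  | zero =>
    intro S _ B
    have h : ∀ a : ℚ, (fun i => a ∈ S i) = fun i : Fin 0 => i.elim0 := fun a =>
      funext fun i => i.elim0
    simp only [h]
    by_cases hB : B fun i : Fin 0 => i.elim0
    · have : {a : ℚ | B fun i : Fin 0 => i.elim0} = Set.univ := by
        ext a
        exact ⟨fun _ => Set.mem_univ _, fun _ => hB⟩
      rw [this]
      exact AlgT.univ Q
    · have : {a : ℚ | B fun i : Fin 0 => i.elim0} = ∅ := by
        ext a
        exact ⟨fun h => (hB h).elim, fun h => h.elim⟩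
      rw [this]
      exact AlgT.empty Q
  | succ N ih =>
    intro S hS B
    have h : {a : ℚ | B (fun i => a ∈ S i)} =
        (S 0 ∩ {a | (fun p : Fin N → Prop => B (Fin.cons True p)) (fun i => a ∈ S i.succ)}) ∪
        ((S 0)ᶜ ∩ {a | (fun p : Fin N → Prop => B (Fin.cons False p)) (fun i => a ∈ S i.succ)}) := by
      ext a
      by_cases h0 : a ∈ S 0
      · have e : (fun i => a ∈ S i) = (Fin.cons True (fun i : Fin N => a ∈ S i.succ) :
            Fin (N + 1) → Prop) := by
          funext i
          refine Fin.cases ?_ (fun i => ?_) i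
          · rw [Fin.cons_zero]
            exact propext ⟨fun _ => trivial, fun _ => h0⟩
          · rw [Fin.cons_succ]
        constructor
        · intro ha
          refine Or.inl ⟨h0, ?_⟩
          show B (Fin.cons True (fun i : Fin N => a ∈ S i.succ))
          rw [← e]
          exact ha
        · rintro (ha | ha)
          · show B (fun i => a ∈ S i)
            rw [e]
            exact ha.2
          · exact (ha.1 h0).elim
      · have e : (fun i => a ∈ S i) = (Fin.cons False (fun i : Fin N => a ∈ S i.succ) :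
            Fin (N + 1) → Prop) := by
          funext i
          refine Fin.cases ?_ (fun i => ?_) i
          · rw [Fin.cons_zero]
            exact propext ⟨fun h => h0 h, fun h => h.elim⟩
          · rw [Fin.cons_succ]
        constructor
        · intro ha
          refine Or.inr ⟨h0, ?_⟩
          show B (Fin.cons False (fun i : Fin N => a ∈ S i.succ))
          rw [← e]
          exact ha
        · rintro (ha | ha)
          · exact (h0 ha.1).elim
          · show B (fun i => a ∈ S i)
            rw [e]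
            exact ha.2
    rw [h]
    exact AlgT.union
      (AlgT.inter _ _ (hS 0) (ih _ (fun i => hS i.succ) fun p => B (Fin.cons True p)))
      (AlgT.inter _ _ (AlgT.compl _ (hS 0))
        (ih _ (fun i => hS i.succ) fun p => B (Fin.cons False p)))

/-- the quadratic equation `(1, z)ᵀ A(a, b, w) (1, z) = 0` has a solution `z` -/
def QuadAt {n t : ℕ} (A : Matrix (Fin (t + 1)) (Fin (t + 1)) (MvPolynomial (Fin 2 ⊕ Fin n) ℚ))
    (a b : ℚ) (w : Fin n → ℚ) : Prop :=
  ∃ y : Fin (t + 1) → ℚ, y 0 = 1 ∧ y ⬝ᵥ (spec A a b w) *ᵥ y = 0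

/-- along a rational curve -/
theorem algT_quad_crv (Q : Set ℕ) {n t : ℕ}
    (A : Matrix (Fin (t + 1)) (Fin (t + 1)) (MvPolynomial (Fin 2 ⊕ Fin n) ℚ)) (hA : A.IsSymm)
    (b : ℚ) (c : ℚ[X]) (hc : c ≠ 0) (h : Fin n → ℚ[X]) :
    AlgT Q {a | QuadAt A a b fun i => (h i).eval a / c.eval a} := by
  classical
  choose N R hR using fun i j => num_ex c (crv b c h) (A i j)
  let M : ℕ := ∑ i, ∑ j, N i j
  have hM : ∀ i j, N i j ≤ M := fun i j =>
    (Finset.single_le_sum (f := fun j => N i j) (fun _ _ => Nat.zero_le _)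
      (Finset.mem_univ j)).trans
      (Finset.single_le_sum (f := fun i => ∑ j, N i j) (fun _ _ => Nat.zero_le _)
        (Finset.mem_univ i))
  let A' : Matrix (Fin (t + 1)) (Fin (t + 1)) ℚ[X] := Matrix.of fun i j => R i j * c ^ (M - N i j)
  have hA'' : (A' + A'ᵀ).IsSymm := by
    show (A' + A'ᵀ)ᵀ = _
    rw [Matrix.transpose_add, Matrix.transpose_transpose]
    exact add_comm _ _
  have hfin : {a : ℚ | c.eval a = 0}.Finite := Polynomial.finite_setOfPred_isRoot hc
  refine AlgT.congr (quad_algT Q (A' + A'ᵀ) hA'') hfin fun a ha => ?_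
  have ha' : c.eval a ≠ 0 := ha
  have hent : ∀ i j, (A' i j).eval a = c.eval a ^ M *
      (spec A a b fun i => (h i).eval a / c.eval a) i j := by
    intro i j
    have h1 := hR i j a ha'
    rw [eval_crv b c h a ha'] at h1
    show (R i j * c ^ (M - N i j)).eval a = _
    rw [eval_mul, eval_pow, h1]
    have h2 : c.eval a ^ M = c.eval a ^ N i j * c.eval a ^ (M - N i j) := by
      rw [← pow_add, Nat.add_sub_cancel' (hM i j)]
    rw [h2]
    simp only [spec, Matrix.map_apply]
    ring
  have hsym : (spec A a b fun i => (h i).eval a / c.eval a).IsSymm := by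
    show (spec A a b _)ᵀ = _
    unfold spec
    rw [← Matrix.transpose_map, hA.eq]
  have hmat : (A' + A'ᵀ).map (Polynomial.eval a) = (2 * c.eval a ^ M) •
      (spec A a b fun i => (h i).eval a / c.eval a) := by
    ext i j
    rw [Matrix.map_apply, Matrix.add_apply, Matrix.transpose_apply, eval_add, hent, hent,
      Matrix.smul_apply, smul_eq_mul, hsym.apply i j]
    ring
  show QuadAt A a b _ ↔ ∃ y : Fin (t + 1) → ℚ, y 0 = 1 ∧
    y ⬝ᵥ ((A' + A'ᵀ).map (Polynomial.eval a)) *ᵥ y = 0
  rw [hmat]
  refine exists_congr fun y => and_congr_right fun _ => ?_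
  rw [Matrix.smul_mulVec, dotProduct_smul, smul_eq_mul, mul_eq_zero]
  constructor
  · exact fun h => Or.inr h
  · rintro (h | h)
    · exact absurd h (mul_ne_zero two_ne_zero (pow_ne_zero _ ha'))
    · exact h

/-- a polynomial equation along a rational curve -/
theorem algT_eq_crv (Q : Set ℕ) {n : ℕ} (f : MvPolynomial (Fin 2 ⊕ Fin n) ℚ)
    (b : ℚ) (c : ℚ[X]) (hc : c ≠ 0) (h : Fin n → ℚ[X]) :
    AlgT Q {a | MvPolynomial.eval (Sum.elim ![a, b] fun i => (h i).eval a / c.eval a) f = 0} := by
  have hfin : {a : ℚ | c.eval a = 0}.Finite := Polynomial.finite_setOfPred_isRoot hc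
  rcases tame_crv (fun _ : Fin 1 => f) (fun p => p 0) b c hc h with h1 | h1
  · refine AlgT.sparse _ (Sparse.of_finite ((h1.union hfin).subset fun a ha => ?_))
    by_cases hca : c.eval a = 0
    · exact Or.inr hca
    · exact Or.inl ⟨hca, ha⟩
  · exact AlgT.congr (AlgT.univ Q) h1 fun a ha =>
      ⟨fun _ => Set.mem_univ _, fun _ => (not_not.1 ha).2⟩

/-- **Formulas with algebraic witnesses** `w`, built from polynomial equations in `(a, b, w)` and from
the solvability of quadratic equations in further unknowns with coefficients in `ℚ[a, b, w]`. -/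
theorem algT_nest (Q : Set ℕ) {n s k : ℕ} (F : Fin s → MvPolynomial (Fin 2 ⊕ Fin n) ℚ)
    {t : Fin k → ℕ}
    (A : ∀ i, Matrix (Fin (t i + 1)) (Fin (t i + 1)) (MvPolynomial (Fin 2 ⊕ Fin n) ℚ))
    (hA : ∀ i, (A i).IsSymm) (B : (Fin s → Prop) → (Fin k → Prop) → Prop) (b : ℚ)
    (hG : ∀ i : Fin n, ∃ G : ℚ[X][X], G ≠ 0 ∧ ∀ (a : ℚ) (w : Fin n → ℚ),
      B (fun i => MvPolynomial.eval (Sum.elim ![a, b] w) (F i) = 0)
        (fun i => QuadAt (A i) a b w) → G.evalEval a (w i) = 0) :
    AlgT Q {a | ∃ w : Fin n → ℚ, B (fun i => MvPolynomial.eval (Sum.elim ![a, b] w) (F i) = 0)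
      (fun i => QuadAt (A i) a b w)} := by
  classical
  choose G hG0 hG using hG
  have hroots : ∀ q : ℚ[X], q ≠ 0 → {a | q.eval a = 0}.Finite := fun q hq =>
    Polynomial.finite_setOfPred_isRoot hq
  -- monic polynomials
  have hI : ∀ i, ∃ I : ℚ[X][X], I.Monic ∧ ∀ a w, (G i).leadingCoeff.eval a ≠ 0 →
      (G i).evalEval a w = 0 → I.evalEval a ((G i).leadingCoeff.eval a * w) = 0 := by
    intro i
    by_cases hd : 1 ≤ (G i).natDegree
    · refine ⟨integralNormalization (G i), monic_integralNormalization (hG0 i), fun a w ha hw => ?_⟩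
      have h1 := integralNormalization_eval₂_leadingCoeff_mul hd (evalRingHom a) w
      rw [eval₂_evalRingHom] at h1
      rw [coe_evalRingHom] at h1
      rw [h1, hw, mul_zero]
    · have hd0 : (G i).natDegree = 0 := by omega
      refine ⟨1, monic_one, fun a w ha hw => ?_⟩
      exfalso
      apply ha
      rw [← map_evalRingHom_eval, eval_map, eval₂_eq_sum_range, hd0] at hw
      simpa [leadingCoeff, hd0] using hw
  choose I hIm hI using hI
  choose H hH1 hH2 hH3 using fun i => exists_prod_multiset_X_sub_C_mul (I i)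
  have hHm : ∀ i, (H i).Monic := by
    intro i
    have h1 : (Multiset.map (fun a => X - C a) (I i).roots).prod.Monic :=
      monic_multiset_prod_of_monic _ _ fun a _ => monic_X_sub_C a
    exact h1.of_mul_monic_left (by rw [hH1 i]; exact hIm i)
  have hm : (∏ i, H i).Monic := monic_prod_of_monic _ _ fun i _ => hHm i
  have hr : ∀ g : ℚ[X], (∏ i, H i).eval g ≠ 0 := by
    intro g
    rw [eval_prod]
    refine Finset.prod_ne_zero_iff.2 fun i _ h => ?_
    have : g ∈ (H i).roots := (mem_roots (hHm i).ne_zero).2 h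
    rw [hH3 i] at this
    simp at this
  set c : ℚ[X] := ∏ i, (G i).leadingCoeff with hc
  have hc0 : c ≠ 0 := Finset.prod_ne_zero_iff.2 fun i _ => leadingCoeff_ne_zero.2 (hG0 i)
  -- the curves
  let hh : (∀ i : Fin n, {g // g ∈ (I i).roots.toFinset}) → Fin n → ℚ[X] := fun j i =>
    (j i).1 * ∏ l ∈ Finset.univ.erase i, (G l).leadingCoeff
  let T : Set ℚ := {a | ∃ w : Fin n → ℚ,
    B (fun i => MvPolynomial.eval (Sum.elim ![a, b] w) (F i) = 0) (fun i => QuadAt (A i) a b w)}
  let D : (∀ i : Fin n, {g // g ∈ (I i).roots.toFinset}) → Set ℚ := fun j =>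
    {a | B (fun i => MvPolynomial.eval (Sum.elim ![a, b]
      (fun i => (hh j i).eval a / c.eval a)) (F i) = 0)
      (fun i => QuadAt (A i) a b (fun i => (hh j i).eval a / c.eval a))}
  have hD : ∀ j, AlgT Q (D j) := by
    intro j
    let S : Fin (s + k) → Set ℚ := Fin.append
      (fun i => {a | MvPolynomial.eval (Sum.elim ![a, b]
        fun i => (hh j i).eval a / c.eval a) (F i) = 0})
      (fun i => {a | QuadAt (A i) a b fun i => (hh j i).eval a / c.eval a})
    have hS : ∀ i, AlgT Q (S i) := by
      intro i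
      refine Fin.addCases (fun i => ?_) (fun i => ?_) i
      · show AlgT Q (Fin.append _ _ _)
        rw [Fin.append_left]
        exact algT_eq_crv Q (F i) b c hc0 (hh j)
      · show AlgT Q (Fin.append _ _ _)
        rw [Fin.append_right]
        exact algT_quad_crv Q (A i) (hA i) b c hc0 (hh j)
    have h1 := AlgT.bool S hS fun p => B (fun i => p (Fin.castAdd k i)) (fun i => p (Fin.natAdd s i))
    have h2 : ∀ (a : ℚ) (i : Fin s), (a ∈ S (Fin.castAdd k i)) = (MvPolynomial.eval
        (Sum.elim ![a, b] fun i => (hh j i).eval a / c.eval a) (F i) = 0) := by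
      intro a i
      show (a ∈ (Fin.append _ _ _ : Set ℚ)) = _
      rw [Fin.append_left]
      rfl
    have h3 : ∀ (a : ℚ) (i : Fin k), (a ∈ S (Fin.natAdd s i)) =
        QuadAt (A i) a b (fun i => (hh j i).eval a / c.eval a) := by
      intro a i
      show (a ∈ (Fin.append _ _ _ : Set ℚ)) = _
      rw [Fin.append_right]
      rfl
    simp only [h2, h3] at h1
    exact h1
  have hT1 : ∀ j, D j ⊆ T := fun j a ha => ⟨_, ha⟩
  -- the thin part
  have hthin : Thin (T ∩ ({a | c.eval a = 0} ∪ {a | ∃ y : ℚ, (∏ i, H i).evalEval a y = 0})) := by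
    refine ((Thin.of_finite (hroots c hc0)).union (D' := {a | ∃ y : ℚ,
      (∏ i, H i).evalEval a y = 0}) ⟨∅, Set.finite_empty, ∏ i, H i, hm, hr,
        fun t ht => Or.inr ht⟩).mono Set.inter_subset_right
  have hT : T = (T ∩ ({a | c.eval a = 0} ∪ {a | ∃ y : ℚ, (∏ i, H i).evalEval a y = 0})) ∪
      ⋃ j, D j := by
    refine Set.Subset.antisymm ?_ ?_
    swap
    · rintro a (ha | ha)
      · exact ha.1
      · obtain ⟨j, hj⟩ := Set.mem_iUnion.1 ha
        exact hT1 j hj
    rintro a ⟨w, hw⟩
    by_cases hca : c.eval a = 0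
    · exact Or.inl ⟨⟨w, hw⟩, Or.inl hca⟩
    have hci : ∀ i, (G i).leadingCoeff.eval a ≠ 0 := by
      intro i h0
      apply hca
      rw [hc, eval_prod]
      exact Finset.prod_eq_zero (Finset.mem_univ i) h0
    by_cases hex : ∃ y : ℚ, (∏ i, H i).evalEval a y = 0
    · exact Or.inl ⟨⟨w, hw⟩, Or.inr hex⟩
    right
    push Not at hex
    have hj : ∀ i : Fin n, ∃ g : {g // g ∈ (I i).roots.toFinset},
        (G i).leadingCoeff.eval a * w i = g.1.eval a := by
      intro i
      have h1 := hI i a (w i) (hci i) (hG i a w hw)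
      rw [← hH1 i, evalEval_mul] at h1
      have h2 : (H i).evalEval a ((G i).leadingCoeff.eval a * w i) ≠ 0 := by
        intro h0
        apply hex ((G i).leadingCoeff.eval a * w i)
        rw [evalEval_prod]
        exact Finset.prod_eq_zero (Finset.mem_univ i) h0
      have h3 := (mul_eq_zero.1 h1).resolve_right h2
      rw [← coe_evalEvalRingHom, map_multiset_prod, Multiset.map_map] at h3
      rw [Multiset.prod_eq_zero_iff, Multiset.mem_map] at h3
      obtain ⟨g, hg, hg'⟩ := h3
      refine ⟨⟨g, Multiset.mem_toFinset.2 hg⟩, ?_⟩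
      simp only [Function.comp_apply, coe_evalEvalRingHom] at hg'
      have h4 : evalEval a ((G i).leadingCoeff.eval a * w i) (X - C g) =
          (G i).leadingCoeff.eval a * w i - g.eval a := by
        simp [evalEval]
      rw [h4] at hg'
      exact sub_eq_zero.1 hg'
    choose j hj using hj
    refine Set.mem_iUnion.2 ⟨j, ?_⟩
    have hw' : (fun i => (hh j i).eval a / c.eval a) = w := by
      funext i
      show ((j i).1 * ∏ l ∈ Finset.univ.erase i, (G l).leadingCoeff).eval a / c.eval a = w i
      rw [div_eq_iff hca, eval_mul, ← hj i, hc, ← Finset.mul_prod_erase _ _ (Finset.mem_univ i),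
        eval_mul]
      ring
    show B (fun i => MvPolynomial.eval (Sum.elim ![a, b]
      (fun i => (hh j i).eval a / c.eval a)) (F i) = 0)
      (fun i => QuadAt (A i) a b (fun i => (hh j i).eval a / c.eval a))
    rw [hw']
    exact hw
  show AlgT Q T
  rw [hT]
  exact AlgT.union (AlgT.sparse _ (thin_sparse hthin)) (AlgT.iUnion D hD)

end Pool.Agent.N230.TP
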