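import Pool.Agent.N609.TS.Root
import Pool.Agent.N609.TS.Local
import Pool.Agent.H880R2.Hilb.E1
import Pool.Agent.TH766.HP.Alg
import Pool.Agent.TH783.CE.Thin

/-!
# Thin sets of rational numbers are nowhere dense in the profinite topology (helper230)
-/

set_option autoImplicit false

namespace Pool.Agent.N230.TP

open Polynomial Pool.Agent.TH766.HP Pool.Agent.TH783.CE
open Pool.Agent.Y701.CH (PosDensity)
open Pool.Agent.N609.TS (irr_density root_mod)

/-- a set of primes of positive density is unbounded -/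
theorem exists_gt {A : Set ℕ} (h : PosDensity A) (B : ℕ) : ∃ p ∈ A, p.Prime ∧ B < p := by
  obtain ⟨c, hc, N₀, hN⟩ := h
  by_contra hcon
  push Not at hcon
  obtain ⟨M, hM⟩ := exists_nat_gt (((B : ℝ) + 1) / c)
  obtain ⟨N, hN1, hN2⟩ := ((Nat.tendsto_primeCounting.eventually_ge_atTop M).and
    (Filter.eventually_ge_atTop N₀)).exists
  have h1 := hN N hN2
  have h2 : Set.ncard {p : ℕ | p ≤ N ∧ p.Prime ∧ p ∈ A} ≤ B + 1 := by
    have h3 : {p : ℕ | p ≤ N ∧ p.Prime ∧ p ∈ A} ⊆ ↑(Finset.Iic B) := fun p hp => by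
      rw [Finset.coe_Iic]
      exact hcon p hp.2.2 hp.2.1
    refine (Set.ncard_le_ncard h3 (Finset.finite_toSet _)).trans ?_
    rw [Set.ncard_coe_finset, Nat.card_Iic]
  have h3 : (Set.ncard {p : ℕ | p ≤ N ∧ p.Prime ∧ p ∈ A} : ℝ) ≤ B + 1 := by exact_mod_cast h2
  have h4 : (M : ℝ) ≤ Nat.primeCounting N := by exact_mod_cast hN1
  have h5 : (B : ℝ) + 1 < c * M := by
    rw [div_lt_iff₀ hc] at hM
    linarith
  nlinarith

theorem irr_scale {R : Type} [CommRing R] [IsDomain R] {G : R[X]} (hG : G.Monic)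
    (hi : Irreducible G) {r : R} (hr : IsUnit r) : Irreducible (G.scaleRoots r) := by
  have hm : (G.scaleRoots r).Monic := (monic_scaleRoots_iff r).2 hG
  rw [hm.irreducible_iff_natDegree]
  rw [hG.irreducible_iff_natDegree] at hi
  obtain ⟨s, hs⟩ := hr.exists_right_inv
  refine ⟨?_, fun f g hf hg hfg => ?_⟩
  · intro h
    have h1 : G.natDegree = 0 := by
      rw [← natDegree_scaleRoots G r, h, natDegree_one]
    exact hi.1 (hG.natDegree_eq_zero.1 h1)
  · have h1 : f.scaleRoots s * g.scaleRoots s = G := by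
      rw [← mul_scaleRoots_of_noZeroDivisors, hfg, ← scaleRoots_mul, hs, scaleRoots_one]
    have h2 := hi.2 _ _ ((monic_scaleRoots_iff s).2 hf) ((monic_scaleRoots_iff s).2 hg) h1
    rwa [natDegree_scaleRoots, natDegree_scaleRoots] at h2

/-- integral multiples of polynomials with rational coefficients -/
theorem exists_mul_lift (g : ℚ[X]) : ∃ D : ℤ, D ≠ 0 ∧
    C (D : ℚ) * g ∈ (mapRingHom (Int.castRingHom ℚ)).range := by
  obtain ⟨D, hD, h⟩ := IsLocalization.integerNormalization_spec (nonZeroDivisors ℤ) g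
  refine ⟨D, nonZeroDivisors.ne_zero hD, IsLocalization.integerNormalization (nonZeroDivisors ℤ) g, ?_⟩
  rw [coe_mapRingHom]
  have e : (algebraMap ℤ ℚ) = Int.castRingHom ℚ := rfl
  rw [e] at h
  rw [h]
  ext i
  simp

theorem exists_mul_lift' (n : ℕ) (g : ℕ → ℚ[X]) : ∃ D : ℤ, D ≠ 0 ∧
    ∀ i < n, C (D : ℚ) * g i ∈ (mapRingHom (Int.castRingHom ℚ)).range := by
  choose D hD h using fun i => exists_mul_lift (g i)
  refine ⟨∏ i ∈ Finset.range n, D i, Finset.prod_ne_zero_iff.2 fun i _ => hD i, fun i hi => ?_⟩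
  obtain ⟨c, hc⟩ := Finset.dvd_prod_of_mem D (Finset.mem_range.2 hi)
  rw [hc]
  have e : C (((D i * c : ℤ)) : ℚ) * g i =
      mapRingHom (Int.castRingHom ℚ) (C c) * (C (D i : ℚ) * g i) := by
    simp
    ring
  rw [e]
  exact Subring.mul_mem _ ⟨_, rfl⟩ (h i)

/-- every monic polynomial over `ℚ[X]` becomes integral by scaling the roots -/
theorem exists_int_scale (G : ℚ[X][X]) (hG : G.Monic) : ∃ (D : ℤ) (F : ℤ[X][X]), D ≠ 0 ∧ F.Monic ∧
    F.map (mapRingHom (Int.castRingHom ℚ)) = G.scaleRoots (C (D : ℚ)) := by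
  obtain ⟨D, hD, h⟩ := exists_mul_lift' G.natDegree G.coeff
  have hm : (G.scaleRoots (C (D : ℚ))).Monic := (monic_scaleRoots_iff _).2 hG
  have hl : G.scaleRoots (C (D : ℚ)) ∈ lifts (mapRingHom (Int.castRingHom ℚ)) := by
    rw [lifts_iff_coeff_lifts]
    intro i
    rw [coeff_scaleRoots]
    rcases lt_trichotomy i G.natDegree with hi | hi | hi
    · have e : G.coeff i * C (D : ℚ) ^ (G.natDegree - i) =
          (C (D : ℚ) * G.coeff i) * C (D : ℚ) ^ (G.natDegree - i - 1) := by
        have : G.natDegree - i = (G.natDegree - i - 1) + 1 := by omega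
        rw [this, pow_succ]
        simp only [Nat.add_sub_cancel]
        ring
      rw [e]
      have h1 : C (D : ℚ) ∈ (mapRingHom (Int.castRingHom ℚ)).range := ⟨C D, by simp⟩
      exact Subring.mul_mem (mapRingHom (Int.castRingHom ℚ)).range (h i hi)
        (Subring.pow_mem _ h1 _)
    · subst hi
      rw [Nat.sub_self, pow_zero, mul_one]
      have h1 : G.coeff G.natDegree = 1 := hG
      rw [h1]
      exact ⟨1, map_one _⟩
    · rw [coeff_eq_zero_of_natDegree_lt hi, zero_mul]
      exact ⟨0, map_zero _⟩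
  obtain ⟨F, hF, -, hFm⟩ := lifts_and_natDegree_eq_and_monic hl hm
  exact ⟨D, F, hD, hFm, hF⟩

theorem ev_eq (t : ℚ) : (Pool.Agent.N609.TS.ev t : ℤ[X] →+* ℚ) =
    (evalRingHom t).comp (mapRingHom (Int.castRingHom ℚ)) := by
  refine Polynomial.ringHom_ext' (Subsingleton.elim _ _) ?_
  rw [Pool.Agent.N609.TS.ev_X]
  simp

/-- a root modulo `q` of a monic polynomial at a rational number integral at `q` -/
theorem root_red {G : ℚ[X][X]} {D : ℤ} {F : ℤ[X][X]} (hF : F.Monic) (hG : G.Monic)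
    (hFG : F.map (mapRingHom (Int.castRingHom ℚ)) = G.scaleRoots (C (D : ℚ)))
    {q : ℕ} [Fact q.Prime] {t : ℤ} {x y : ℚ} (hx : padicNorm q (x - t) < 1)
    (hy : G.evalEval x y = 0) :
    ∃ z : ZMod q, ((F.map (evalRingHom t)).map (Int.castRingHom (ZMod q))).eval z = 0 := by
  have hq := (Fact.out : q.Prime)
  -- the denominator of x is prime to q
  have hden : ¬ (q : ℤ) ∣ (x.den : ℤ) := by
    intro hd
    have h1 : padicNorm q x ≤ 1 := by
      have h2 : x = (x - t) + t := by ring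
      rw [h2]
      exact padicNorm.nonarchimedean.trans (max_le hx.le (padicNorm.of_int t))
    have hd' : q ∣ x.den := by exact_mod_cast hd
    have h3 : padicNorm q (x.den : ℚ) < 1 := (padicNorm.nat_lt_one_iff x.den).2 hd'
    have h4 : padicNorm q (x.num : ℚ) = 1 := by
      rw [padicNorm.int_eq_one_iff]
      intro hn
      have h5 : q ∣ x.num.natAbs := Int.natCast_dvd.1 hn
      have h6 := Nat.dvd_gcd h5 hd'
      rw [x.reduced] at h6
      exact hq.one_lt.ne' (Nat.dvd_one.1 h6)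
    have h7 : x = (x.num : ℚ) / (x.den : ℚ) := (Rat.num_div_den x).symm
    rw [h7, padicNorm.div, h4] at h1
    have h8 : 0 < padicNorm q (x.den : ℚ) := lt_of_le_of_ne (padicNorm.nonneg _)
      (padicNorm.nonzero (by exact_mod_cast x.den_nz)).symm
    rw [div_le_one h8] at h1
    linarith
  have hd0 : (x.den : ℚ) ≠ 0 := by exact_mod_cast x.den_nz
  have hxd : x * ((x.den : ℤ) : ℚ) = (x.num : ℚ) := by
    push_cast
    exact Rat.mul_den_eq_num x
  refine root_mod (q := q) hF (a := t) (J := x.num) (D := (x.den : ℤ)) (j := x) (y := D * y) hden hxd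
    ?_ ?_
  · -- the congruence
    have h1 : ((x.num - t * x.den : ℤ) : ℚ) = (x - t) * x.den := by
      push_cast
      rw [sub_mul]
      have := hxd
      push_cast at this
      rw [this]
    have h2 : padicNorm q ((x.num - t * x.den : ℤ) : ℚ) < 1 := by
      rw [h1, padicNorm.mul]
      have h3 : padicNorm q (x.den : ℚ) ≤ 1 := padicNorm.of_int (p := q) (x.den : ℤ)
      have h4 : 0 ≤ padicNorm q (x - t) := padicNorm.nonneg _
      nlinarith
    have h3 : (q : ℤ) ∣ x.num - t * x.den := (padicNorm.int_lt_one_iff _).1 h2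
    have h4 := (ZMod.intCast_zmod_eq_zero_iff_dvd _ q).2 h3
    push_cast at h4
    rw [sub_eq_zero] at h4
    push_cast
    exact h4
  · rw [ev_eq, ← Polynomial.map_map, hFG, map_scaleRoots _ _ _ (by rw [hG.leadingCoeff, map_one]; exact one_ne_zero)]
    have h1 : (G.map (evalRingHom x)).eval y = 0 := by
      rw [eval_map, eval₂_evalRingHom, hy]
    have h2 : (evalRingHom x) (C (D : ℚ)) = (D : ℚ) := by simp
    rw [h2]
    have h3 := scaleRoots_eval_mul (G.map (evalRingHom x)) y (D : ℚ)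
    rw [h3, h1, mul_zero]

end Pool.Agent.N230.TP
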