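import Pool.Agent.N230.TP.Nowhere

/-!
# Thin sets of rational numbers are nowhere dense in the profinite topology, II (helper230)
-/

set_option autoImplicit false

namespace Pool.Agent.N230.TP

open Polynomial Pool.Agent.TH766.HP Pool.Agent.TH783.CE
open Pool.Agent.Y701.CH (PosDensity)
open Pool.Agent.N609.TS (irr_density root_mod)

/-- Every residue class contains a residue class which meets the set in a finite set only. -/
def Sparse (T : Set ℚ) : Prop := ∀ a b : ℤ, 0 < b → ∃ a' b' : ℤ, 0 < b' ∧ b ∣ b' ∧ b ∣ a' - a ∧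
  (T ∩ Cls a' b').Finite

theorem Sparse.mono {T T' : Set ℚ} (h : Sparse T) (hT : T' ⊆ T) : Sparse T' := by
  intro a b hb
  obtain ⟨a', b', h1, h2, h3, h4⟩ := h a b hb
  exact ⟨a', b', h1, h2, h3, h4.subset (Set.inter_subset_inter_left _ hT)⟩

theorem Sparse.of_finite {T : Set ℚ} (h : T.Finite) : Sparse T := fun a b hb =>
  ⟨a, b, hb, dvd_rfl, by simp, h.subset Set.inter_subset_left⟩

theorem Sparse.union {T T' : Set ℚ} (h : Sparse T) (h' : Sparse T') : Sparse (T ∪ T') := by
  intro a b hb
  obtain ⟨a', b', h1, h2, h3, h4⟩ := h a b hb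
  obtain ⟨a'', b'', k1, k2, k3, k4⟩ := h' a' b' h1
  refine ⟨a'', b'', k1, h2.trans k2, ?_, ?_⟩
  · have e : a'' - a = (a'' - a') + (a' - a) := by ring
    rw [e]
    exact dvd_add (h2.trans k3) h3
  · rw [Set.union_inter_distrib_right]
    exact (h4.subset (Set.inter_subset_inter_right _ (Cls_mono k1 k2 k3))).union k4

/-- irreducible polynomials of degree at least two -/
theorem irr_sparse (G : ℚ[X][X]) (hG : G.Monic) (hi : Irreducible G) (hd : 2 ≤ G.natDegree) :
    Sparse {x | ∃ y, G.evalEval x y = 0} := by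
  intro a b hb
  obtain ⟨D, F, hD, hF, hFG⟩ := exists_int_scale G hG
  have hDu : IsUnit (C (D : ℚ)) := by
    rw [Polynomial.isUnit_C]
    exact (isUnit_iff_ne_zero).2 (by exact_mod_cast hD)
  obtain ⟨t, -, hti⟩ := Pool.Agent.H880R2.Hilb.hilb_core _ ((monic_scaleRoots_iff _).2 hG)
    (irr_scale hG hi hDu) 0
  set H : ℤ[X] := F.map (evalRingHom t) with hH
  have hHd : H.natDegree = G.natDegree := by
    rw [hH, hF.natDegree_map, ← natDegree_scaleRoots G (C (D : ℚ)), ← hFG, hF.natDegree_map]
  have hHi : Irreducible (H.map (Int.castRingHom ℚ)) := by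
    rw [← hFG, Polynomial.map_map] at hti
    rw [hH, Polynomial.map_map]
    have e : (Int.castRingHom ℚ).comp (evalRingHom t) =
        (evalRingHom (t : ℚ)).comp (mapRingHom (Int.castRingHom ℚ)) := by
      refine Polynomial.ringHom_ext' (Subsingleton.elim _ _) ?_
      simp
    rw [e]
    exact hti
  obtain ⟨q, hqA, hq, hqb⟩ := exists_gt (irr_density H hHi (by omega)) b.natAbs
  have : Fact q.Prime := ⟨hq⟩
  have hcop : IsCoprime b (q : ℤ) := by
    rw [Int.isCoprime_iff_gcd_eq_one, Int.gcd_comm]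
    refine (Nat.Prime.coprime_iff_not_dvd hq).2 fun hd' => ?_
    have := Nat.le_of_dvd (Int.natAbs_pos.2 hb.ne') hd'
    omega
  obtain ⟨u, v, huv⟩ := hcop
  have hq0 : (0 : ℤ) < q := by exact_mod_cast hq.pos
  refine ⟨a + b * (u * (t - a)), b * q, mul_pos hb hq0, dvd_mul_right _ _,
    ⟨u * (t - a), by ring⟩, ?_⟩
  convert Set.finite_empty (α := ℚ)
  rw [Set.eq_empty_iff_forall_notMem]
  rintro x ⟨⟨y, hy⟩, hx⟩
  have hx1 := hx q hq (dvd_mul_left _ _)
  have hlt : padicNorm q (((q : ℤ)) : ℚ) < 1 := (padicNorm.int_lt_one_iff _).2 dvd_rfl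
  have hx2 : padicNorm q (((b * q : ℤ)) : ℚ) < 1 :=
    (padicNorm.int_lt_one_iff _).2 (dvd_mul_left _ _)
  have hx3 : padicNorm q (x - t) < 1 := by
    have e : x - t = (x - ((a + b * (u * (t - a)) : ℤ) : ℚ)) +
        ((q * (-v * (t - a)) : ℤ) : ℚ) := by
      have h1 : (u : ℚ) * b = 1 - v * q := by
        have h2 : ((u * b + v * q : ℤ) : ℚ) = 1 := by rw [huv]; simp
        push_cast at h2
        linarith
      push_cast
      linear_combination ((t : ℚ) - a) * h1
    rw [e]
    refine lt_of_le_of_lt padicNorm.nonarchimedean (max_lt (hx1.trans_lt hx2) ?_)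
    exact (padicNorm.int_lt_one_iff _).2 (dvd_mul_right _ _)
  obtain ⟨z, hz⟩ := root_red hF hG hFG hx3 hy
  exact hqA.2 z hz

theorem monic_sparse : ∀ (n : ℕ) (G : ℚ[X][X]), G.natDegree = n → G.Monic →
    (∀ g : ℚ[X], G.eval g ≠ 0) → Sparse {x | ∃ y, G.evalEval x y = 0} := by
  intro n
  induction n using Nat.strong_induction_on with
  | _ n ih =>
    intro G hn hG hroot
    by_cases h1 : G = 1
    · refine (Sparse.of_finite (T := ∅) Set.finite_empty).mono ?_
      rintro x ⟨y, hy⟩
      rw [h1] at hy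
      simp [evalEval] at hy
    by_cases hi : Irreducible G
    · refine irr_sparse G hG hi ?_
      by_contra hlt
      have h2 : G.natDegree ≠ 0 := fun h0 => h1 (hG.natDegree_eq_zero.1 h0)
      have h3 : G.natDegree = 1 := by omega
      have h4 := hG.eq_X_add_C h3
      apply hroot (-(G.coeff 0))
      rw [h4]
      simp
    · rw [hG.irreducible_iff_natDegree] at hi
      push Not at hi
      obtain ⟨f, g, hf, hg, hfg, hf0, hg0⟩ := hi h1
      have hdeg : G.natDegree = f.natDegree + g.natDegree := by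
        rw [← hfg]
        exact hf.natDegree_mul hg
      have k1 := ih f.natDegree (by omega) f rfl hf (fun c hc => hroot c (by
        rw [← hfg, eval_mul, hc, zero_mul]))
      have k2 := ih g.natDegree (by omega) g rfl hg (fun c hc => hroot c (by
        rw [← hfg, eval_mul, hc, mul_zero]))
      refine (k1.union k2).mono ?_
      rintro x ⟨y, hy⟩
      rw [← hfg, evalEval_mul] at hy
      rcases mul_eq_zero.1 hy with h | h
      · exact Or.inl ⟨y, h⟩
      · exact Or.inr ⟨y, h⟩

/-- **Thin sets of rational numbers are nowhere dense in the profinite topology.** -/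
theorem thin_sparse {T : Set ℚ} (hT : Thin T) : Sparse T := by
  obtain ⟨E, hE, G, hG, hroot, hcov⟩ := hT
  refine ((Sparse.of_finite hE).union (monic_sparse _ G rfl hG hroot)).mono ?_
  intro t ht
  rcases hcov t ht with h | h
  · exact Or.inl h
  · exact Or.inr h

end Pool.Agent.N230.TP
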