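import Pool.Agent.N230.TP.Quad2

/-!
# Formulas with one quantifier: thin or cofinite (helper230)

The proof follows the proof by helper455 of `Pool.Agent.N455.PR.thin_oneQ` (the case of sets which are
contained in a flat set).
-/

set_option autoImplicit false

namespace Pool.Agent.N230.TP

open Polynomial
open Pool.Agent.TH783.CE (Thin Thin.mono Thin.of_finite Thin.union)

/-- Along the graph of a polynomial the condition `P` holds for finitely many or for all but
finitely many parameters. -/
def Tame (P : ℚ → ℚ → Prop) : Prop :=
  ∀ h : ℚ[X], {a | P a (h.eval a)}.Finite ∨ {a | ¬ P a (h.eval a)}.Finite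

theorem dich_monic {P : ℚ → ℚ → Prop} (hP : Tame P) :
    ∀ (m : ℕ) (G : ℚ[X][X]), G.Monic → G.natDegree = m →
      Thin {a | ∃ y, G.evalEval a y = 0 ∧ P a y} ∨
        {a | ¬ ∃ y, G.evalEval a y = 0 ∧ P a y}.Finite := by
  intro m
  induction m with
  | zero =>
    intro G hG hm
    have h1 : G = 1 := eq_one_of_monic_natDegree_zero hG hm
    left
    refine Thin.of_finite ?_
    have : {a : ℚ | ∃ y, G.evalEval a y = 0 ∧ P a y} = ∅ := by
      ext a
      simp [h1, evalEval]
    rw [this]
    exact Set.finite_empty
  | succ m ih =>
    intro G hG hm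
    by_cases hr : ∃ h : ℚ[X], G.eval h = 0
    · obtain ⟨h, hh⟩ := hr
      obtain ⟨G', hG'⟩ := dvd_iff_isRoot.2 hh
      have hGm : G'.Monic := (monic_X_sub_C h).of_mul_monic_left (by rw [← hG']; exact hG)
      have hdeg : G'.natDegree = m := by
        have h1 := (monic_X_sub_C h).natDegree_mul hGm
        rw [← hG', hm, natDegree_X_sub_C] at h1
        omega
      have hev : ∀ a y, G.evalEval a y = (y - h.eval a) * G'.evalEval a y := by
        intro a y
        rw [hG', evalEval_mul]
        congr 1
        simp [evalEval]
      rcases hP h with h1 | h1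
      · rcases ih G' hGm hdeg with h2 | h2
        · left
          refine ((Thin.of_finite h1).union h2).mono ?_
          rintro a ⟨y, hy, hPy⟩
          rw [hev] at hy
          rcases mul_eq_zero.1 hy with h3 | h3
          · left
            have h4 : y = h.eval a := sub_eq_zero.1 h3
            show P a (h.eval a)
            rw [← h4]
            exact hPy
          · exact Or.inr ⟨y, h3, hPy⟩
        · right
          refine h2.subset fun a ha hc => ha ?_
          obtain ⟨y, hy, hPy⟩ := hc
          exact ⟨y, by rw [hev, hy, mul_zero], hPy⟩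
      · right
        refine h1.subset fun a ha hc => ha ?_
        exact ⟨h.eval a, by rw [hev, sub_self, zero_mul], hc⟩
    · push Not at hr
      exact Or.inl ⟨∅, Set.finite_empty, G, hG, hr, fun t ht => by
        obtain ⟨y, hy, -⟩ := ht
        exact Or.inr ⟨y, hy⟩⟩

/-- the numerator of `f(a, h(a) / c(a))` -/
noncomputable def num (f : ℚ[X][X]) (h c : ℚ[X]) : ℚ[X] :=
  ∑ j ∈ Finset.range (f.natDegree + 1), f.coeff j * h ^ j * c ^ (f.natDegree - j)

theorem eval_num (f : ℚ[X][X]) (h c : ℚ[X]) (a : ℚ) (ha : c.eval a ≠ 0) :
    (num f h c).eval a = c.eval a ^ f.natDegree * f.evalEval a (h.eval a / c.eval a) := by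
  rw [← map_evalRingHom_eval, eval_map, eval₂_eq_sum_range, num, eval_finsetSum, Finset.mul_sum]
  refine Finset.sum_congr rfl fun j hj => ?_
  have hj' : j ≤ f.natDegree := Nat.lt_succ_iff.1 (Finset.mem_range.1 hj)
  rw [eval_mul, eval_mul, eval_pow, eval_pow, coe_evalRingHom, div_pow]
  have h1 : c.eval a ^ f.natDegree = c.eval a ^ (f.natDegree - j) * c.eval a ^ j := by
    rw [← pow_add, Nat.sub_add_cancel hj']
  rw [h1]
  field_simp

/-- **Formulas with one quantifier.** A Boolean combination of polynomial equations
`f_i(a, w) = 0`: the elements `a` for which there is a solution `w` form a thin set or a set with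
finite complement. -/
theorem dich_oneQ {s : ℕ} (f : Fin s → ℚ[X][X]) (B : (Fin s → Prop) → Prop) :
    Thin {a | ∃ w, B (fun i => (f i).evalEval a w = 0)} ∨
      {a | ¬ ∃ w, B (fun i => (f i).evalEval a w = 0)}.Finite := by
  classical
  set F : ℚ[X][X] := ∏ i ∈ Finset.univ.filter (fun i => f i ≠ 0), f i with hF
  have hF0 : F ≠ 0 := Finset.prod_ne_zero_iff.2 fun i hi => (Finset.mem_filter.1 hi).2
  have hvec : ∀ a w, F.evalEval a w ≠ 0 →
      (fun i => (f i).evalEval a w = 0) = fun i => f i = 0 := by
    intro a w haw
    funext i
    refine propext ⟨fun hi => ?_, fun hi => by rw [hi]; simp [evalEval]⟩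
    by_contra h0
    apply haw
    rw [hF, evalEval_prod]
    exact Finset.prod_eq_zero (Finset.mem_filter.2 ⟨Finset.mem_univ i, h0⟩) hi
  have hc0 : F.leadingCoeff ≠ 0 := leadingCoeff_ne_zero.2 hF0
  have hfinc : {a | F.leadingCoeff.eval a = 0}.Finite := by
    refine (F.leadingCoeff.roots.toFinset.finite_toSet).subset fun a ha => ?_
    rw [Finset.mem_coe, Multiset.mem_toFinset]
    exact (mem_roots hc0).2 ha
  by_cases hτ : B (fun i => f i = 0)
  · right
    refine hfinc.subset fun a hna => ?_
    by_contra ha
    apply hna
    have h1 : F.map (evalRingHom a) ≠ 0 := by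
      intro h0
      apply ha
      have := congrArg (fun p => p.coeff F.natDegree) h0
      simp only [coeff_map, coeff_zero, coe_evalRingHom] at this
      exact this
    obtain ⟨w, hw⟩ : ∃ w, (F.map (evalRingHom a)).eval w ≠ 0 := by
      by_contra hcon
      push Not at hcon
      exact h1 (Polynomial.funext fun w => by rw [hcon w, eval_zero])
    rw [map_evalRingHom_eval] at hw
    refine ⟨w, ?_⟩
    rw [hvec a w hw]
    exact hτ
  · set c := F.leadingCoeff with hc
    let P : ℚ → ℚ → Prop := fun a y => c.eval a ≠ 0 ∧
      B (fun i => (f i).evalEval a (y / c.eval a) = 0)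
    have hP : Tame P := by
      intro g
      set A : Set ℚ := {a | c.eval a = 0} ∪
        ⋃ i : Fin s, {a | num (f i) g c ≠ 0 ∧ (num (f i) g c).eval a = 0} with hA
      have hAfin : A.Finite := by
        refine hfinc.union (Set.finite_iUnion fun i => ?_)
        by_cases h0 : num (f i) g c = 0
        · have : {a | num (f i) g c ≠ 0 ∧ (num (f i) g c).eval a = 0} = ∅ := by
            ext a
            simp [h0]
          rw [this]
          exact Set.finite_empty
        · refine ((num (f i) g c).roots.toFinset.finite_toSet).subset fun a ha => ?_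
          rw [Finset.mem_coe, Multiset.mem_toFinset]
          exact (mem_roots h0).2 ha.2
      have hconst : ∀ a, a ∉ A → ((fun i => (f i).evalEval a (g.eval a / c.eval a) = 0) =
          fun i => num (f i) g c = 0) := by
        intro a ha
        have hca : c.eval a ≠ 0 := fun h0 => ha (Or.inl h0)
        funext i
        have h1 := eval_num (f i) g c a hca
        refine propext ⟨fun hi => ?_, fun hi => ?_⟩
        · by_contra h0
          apply ha
          right
          refine Set.mem_iUnion.2 ⟨i, h0, ?_⟩
          rw [h1, hi, mul_zero]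
        · rw [hi, eval_zero] at h1
          exact (mul_eq_zero.1 h1.symm).resolve_left (pow_ne_zero _ hca)
      by_cases hB : B (fun i => num (f i) g c = 0)
      · right
        refine hAfin.subset fun a ha => ?_
        by_contra haA
        apply ha
        refine ⟨fun h0 => haA (Or.inl h0), ?_⟩
        rw [hconst a haA]
        exact hB
      · left
        refine hAfin.subset fun a ha => ?_
        by_contra haA
        apply hB
        rw [← hconst a haA]
        exact ha.2
    by_cases hd : 1 ≤ F.natDegree
    · have hev : ∀ a w, (integralNormalization F).evalEval a (c.eval a * w) =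
          c.eval a ^ (F.natDegree - 1) * F.evalEval a w := by
        intro a w
        have h1 := integralNormalization_eval₂_leadingCoeff_mul hd (evalRingHom a) w
        rw [eval₂_evalRingHom] at h1
        exact h1
      rcases dich_monic hP _ (integralNormalization F) (monic_integralNormalization hF0)
        rfl with hmain | hmain
      · left
        refine ((Thin.of_finite hfinc).union hmain).mono ?_
        rintro a ⟨w, hw⟩
        by_cases hca : c.eval a = 0
        · exact Or.inl hca
        · right
          have hFaw : F.evalEval a w = 0 := by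
            by_contra h0
            apply hτ
            rw [← hvec a w h0]
            exact hw
          refine ⟨c.eval a * w, by rw [hev, hFaw, mul_zero], hca, ?_⟩
          rw [mul_div_cancel_left₀ _ hca]
          exact hw
      · right
        refine hmain.subset fun a ha hc' => ha ?_
        obtain ⟨y, -, -, hy⟩ := hc'
        exact ⟨_, hy⟩
    · have hd0 : F.natDegree = 0 := by omega
      left
      refine (Thin.of_finite hfinc).mono ?_
      rintro a ⟨w, hw⟩
      by_contra hca
      have hca' : c.eval a ≠ 0 := hca
      apply hτ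
      rw [← hvec a w ?_]
      · exact hw
      · intro h0
        apply hca'
        rw [← map_evalRingHom_eval, eval_map, eval₂_eq_sum_range, hd0] at h0
        simpa [hc, leadingCoeff, hd0] using h0

/-- the same in terms of polynomials in three variables -/
theorem dich_oneQ3 {s : ℕ} (F : Fin s → MvPolynomial (Fin 3) ℚ) (B : (Fin s → Prop) → Prop)
    (b : ℚ) :
    Thin {a | ∃ w : ℚ, B (fun i => MvPolynomial.eval ![a, b, w] (F i) = 0)} ∨
      {a | ¬ ∃ w : ℚ, B (fun i => MvPolynomial.eval ![a, b, w] (F i) = 0)}.Finite := by
  have key : ∀ (a w : ℚ) (i : Fin s),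
      (MvPolynomial.aeval (![C X, C (C b), X] : Fin 3 → ℚ[X][X]) (F i)).evalEval a w =
        MvPolynomial.eval ![a, b, w] (F i) := by
    intro a w i
    have h : ((evalEvalRingHom a w).comp (MvPolynomial.aeval (R := ℚ)
        (![C X, C (C b), X] : Fin 3 → ℚ[X][X])).toRingHom) = MvPolynomial.eval ![a, b, w] := by
      apply MvPolynomial.ringHom_ext
      · intro r
        simp
      · intro j
        fin_cases j <;> simp
    exact congrFun (congrArg DFunLike.coe h) (F i)
  have := dich_oneQ (fun i => MvPolynomial.aeval (![C X, C (C b), X] : Fin 3 → ℚ[X][X]) (F i)) B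
  simpa only [key] using this

theorem algT_oneQ (Q : Set ℕ) {s : ℕ} (F : Fin s → MvPolynomial (Fin 3) ℚ)
    (B : (Fin s → Prop) → Prop) (b : ℚ) :
    AlgT Q {a | ∃ w : ℚ, B (fun i => MvPolynomial.eval ![a, b, w] (F i) = 0)} := by
  rcases dich_oneQ3 F B b with h | h
  · exact AlgT.sparse _ (thin_sparse h)
  · have h1 := AlgT.compl (Q := Q) _ (AlgT.sparse _ (Sparse.of_finite h))
    have h2 : {a | ¬ ∃ w : ℚ, B (fun i => MvPolynomial.eval ![a, b, w] (F i) = 0)}ᶜ =
        {a | ∃ w : ℚ, B (fun i => MvPolynomial.eval ![a, b, w] (F i) = 0)} := by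
      ext a
      simp only [Set.mem_compl_iff, Set.mem_ofPred_eq, not_not]
    rwa [h2] at h1

end Pool.Agent.N230.TP
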