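import Pool.Agent.N230.TP.AlgT
import Pool.Agent.N230.TP.HM

/-!
# Families of quadrics over the line (helper230)
-/

set_option autoImplicit false

namespace Pool.Agent.N230.TP

open Polynomial Matrix Pool.Agent.TH766.HP
open Pool.Agent.R847.QB.M394 (quad_eq)

/-- diagonalisation of a symmetric matrix over a field -/
theorem exists_diagK (K : Type) [Field K] [CharZero K] (N : ℕ) (M : Matrix (Fin N) (Fin N) K)
    (hM : M.IsSymm) :
    ∃ (P Q : Matrix (Fin N) (Fin N) K) (w : Fin N → K), P * Q = 1 ∧ Q * P = 1 ∧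
      Pᵀ * M * P = Matrix.diagonal w := by
  haveI : Invertible (2 : K) := invertibleOfNonzero (by norm_num)
  have hB : LinearMap.IsSymm (Matrix.toBilin' M) := by
    constructor
    intro x y
    rw [RingHom.id_apply, Matrix.toBilin'_apply', Matrix.toBilin'_apply']
    rw [Matrix.dotProduct_mulVec, ← Matrix.mulVec_transpose, hM.eq, dotProduct_comm]
  obtain ⟨v, hv⟩ := LinearMap.BilinForm.exists_orthogonal_basis hB
  have hfin : Module.finrank K (Fin N → K) = N := by simp
  set b := v.reindex (finCongr hfin) with hb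
  have hbo : ∀ i j, i ≠ j → Matrix.toBilin' M (b i) (b j) = 0 := by
    intro i j hij
    rw [hb, Module.Basis.reindex_apply, Module.Basis.reindex_apply]
    exact hv (fun h => hij (by simpa using h))
  refine ⟨(Pi.basisFun K (Fin N)).toMatrix b, b.toMatrix (Pi.basisFun K (Fin N)),
    fun i => Matrix.toBilin' M (b i) (b i), Module.Basis.toMatrix_mul_toMatrix_flip _ _,
    Module.Basis.toMatrix_mul_toMatrix_flip _ _, ?_⟩
  ext i j
  have h1 : (((Pi.basisFun K (Fin N)).toMatrix b)ᵀ * M * (Pi.basisFun K (Fin N)).toMatrix b) i j =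
      Matrix.toBilin' M (b i) (b j) := by
    rw [Matrix.toBilin'_apply', Matrix.mul_assoc, Matrix.mul_apply]
    simp only [dotProduct, Matrix.transpose_apply, Module.Basis.toMatrix_apply, Pi.basisFun_repr]
    refine Finset.sum_congr rfl fun k _ => ?_
    rw [Matrix.mul_apply]
    rfl
  rw [h1]
  by_cases hij : i = j
  · subst hij
    rw [Matrix.diagonal_apply_eq]
  · rw [Matrix.diagonal_apply_ne _ hij, hbo i j hij]

/-- diagonalisation over a polynomial ring, up to a nonzero determinant -/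
theorem exists_diag_poly (N : ℕ) (A : Matrix (Fin N) (Fin N) ℚ[X]) (hA : A.IsSymm) :
    ∃ (P : Matrix (Fin N) (Fin N) ℚ[X]) (g : Fin N → ℚ[X]), P.det ≠ 0 ∧
      Pᵀ * A * P = Matrix.diagonal g := by
  let K := FractionRing ℚ[X]
  have hK : CharZero K := IsFractionRing.charZero ℚ[X]
  let φ : ℚ[X] →+* K := algebraMap ℚ[X] K
  have hφ : Function.Injective φ := IsFractionRing.injective ℚ[X] K
  have hM : (A.map φ).IsSymm := by
    show (A.map φ)ᵀ = _
    rw [← Matrix.transpose_map, hA.eq]
  obtain ⟨P0, Q0, w, hPQ, -, hD⟩ := exists_diagK K N (A.map φ) hM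
  obtain ⟨b, hb⟩ := IsLocalization.exist_integer_multiples (nonZeroDivisors ℚ[X])
    (Finset.univ : Finset (Fin N × Fin N)) (fun ij => P0 ij.1 ij.2)
  choose p hp using fun i j => hb (i, j) (Finset.mem_univ _)
  have hb0 : φ (b : ℚ[X]) ≠ 0 := by
    rw [Ne, map_eq_zero_iff φ hφ]
    exact nonZeroDivisors.ne_zero b.2
  have hPm : (Matrix.of p).map φ = φ (b : ℚ[X]) • P0 := by
    ext i j
    have h1 := hp i j
    rw [Algebra.smul_def] at h1
    simpa using h1
  refine ⟨Matrix.of p, fun i => ((Matrix.of p)ᵀ * A * Matrix.of p) i i, ?_, ?_⟩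
  · intro h0
    have h1 := congrArg φ h0
    rw [map_zero, RingHom.map_det] at h1
    have h2 : φ.mapMatrix (Matrix.of p) = φ (b : ℚ[X]) • P0 := hPm
    rw [h2, Matrix.det_smul] at h1
    have h3 : P0.det ≠ 0 := by
      intro h4
      have := congrArg Matrix.det hPQ
      rw [Matrix.det_mul, h4, zero_mul, Matrix.det_one] at this
      exact zero_ne_one this
    exact mul_ne_zero (pow_ne_zero _ hb0) h3 h1
  · ext1 i j
    by_cases hij : i = j
    · subst hij
      rw [Matrix.diagonal_apply_eq]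
    · rw [Matrix.diagonal_apply_ne _ hij]
      apply hφ
      rw [map_zero]
      have h1 : ((Matrix.of p)ᵀ * A * Matrix.of p).map φ =
          (φ (b : ℚ[X]) * φ (b : ℚ[X])) • Matrix.diagonal w := by
        rw [Matrix.map_mul, Matrix.map_mul, Matrix.transpose_map, hPm, ← hD]
        simp only [Matrix.transpose_smul, Matrix.smul_mul, Matrix.mul_smul, smul_smul]
      have h2 := congrFun (congrFun h1 i) j
      rw [Matrix.map_apply] at h2
      rw [h2, Matrix.smul_apply, Matrix.diagonal_apply_ne _ hij, smul_zero]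

/-- an isotropic vector outside a hyperplane -/
theorem move {N : ℕ} (d l w : Fin N → ℚ) (hw : ∑ i, d i * w i ^ 2 = 0) {j : Fin N}
    (hj : d j ≠ 0) (hwj : w j ≠ 0) {k : Fin N} (hk : d k ≠ 0) (hlk : l k ≠ 0) :
    ∃ v : Fin N → ℚ, ∑ i, d i * v i ^ 2 = 0 ∧ ∑ i, l i * v i ≠ 0 := by
  classical
  by_cases h0 : ∑ i, l i * w i = 0
  swap
  · exact ⟨w, hw, h0⟩
  -- the values at `w - c u`
  have gen : ∀ (c : ℚ) (u : Fin N → ℚ), ∑ i, d i * (w i - c * u i) ^ 2 =
      c * (c * ∑ i, d i * u i ^ 2 - 2 * ∑ i, d i * w i * u i) := by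
    intro c u
    have h1 : ∑ i, d i * (w i - c * u i) ^ 2 = ∑ i, d i * w i ^ 2 +
        (c * c * ∑ i, d i * u i ^ 2 - 2 * c * ∑ i, d i * w i * u i) := by
      rw [Finset.mul_sum, Finset.mul_sum, ← Finset.sum_sub_distrib, ← Finset.sum_add_distrib]
      exact Finset.sum_congr rfl fun i _ => by ring
    rw [h1, hw]
    ring
  have genl : ∀ (c : ℚ) (u : Fin N → ℚ), ∑ i, l i * (w i - c * u i) = -(c * ∑ i, l i * u i) := by
    intro c u
    have h1 : ∑ i, l i * (w i - c * u i) = ∑ i, l i * w i - c * ∑ i, l i * u i := by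
      rw [Finset.mul_sum, ← Finset.sum_sub_distrib]
      exact Finset.sum_congr rfl fun i _ => by ring
    rw [h1, h0]
    ring
  by_cases h1 : ∃ j, w j ≠ 0 ∧ l j ≠ 0
  · obtain ⟨j, hwj, hlj⟩ := h1
    refine ⟨fun i => w i - 2 * w j * (if i = j then 1 else 0), ?_, ?_⟩
    · rw [gen]
      simp only [ite_pow, one_pow, mul_ite, mul_one, mul_zero, Finset.sum_ite_eq',
        Finset.mem_univ, if_true, ne_eq, OfNat.ofNat_ne_zero, not_false_eq_true, zero_pow]
      ring
    · rw [genl]
      simp only [mul_ite, mul_one, mul_zero, Finset.sum_ite_eq', Finset.mem_univ, if_true]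
      exact neg_ne_zero.2 (mul_ne_zero (mul_ne_zero two_ne_zero hwj) hlj)
  · push Not at h1
    have hlj : l j = 0 := h1 j hwj
    have hwk : w k = 0 := by
      by_contra hc
      exact hlk (h1 k hc)
    have hjk : j ≠ k := fun h => hlk (h ▸ hlj)
    obtain ⟨β, hβ0, hβ⟩ : ∃ β : ℚ, β ≠ 0 ∧ d j + β ^ 2 * d k ≠ 0 := by
      by_cases h2 : d j + d k = 0
      · refine ⟨2, two_ne_zero, fun h3 => hk ?_⟩
        have : d j + 2 ^ 2 * d k - (d j + d k) = 0 := by rw [h3, h2]; ring
        linarith
      · exact ⟨1, one_ne_zero, by simpa using h2⟩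
    have hsum : ∀ f : Fin N → ℚ, ∑ i, f i * ((if i = j then 1 else 0) + (if i = k then β else 0)) =
        f j + f k * β := by
      intro f
      simp only [mul_add, Finset.sum_add_distrib, mul_ite, mul_one, mul_zero, Finset.sum_ite_eq',
        Finset.mem_univ, if_true]
    have hsq : ∑ i, d i * ((if i = j then (1 : ℚ) else 0) + (if i = k then β else 0)) ^ 2 =
        d j + β ^ 2 * d k := by
      have h2 : ∀ i, d i * ((if i = j then (1 : ℚ) else 0) + (if i = k then β else 0)) ^ 2 =
          (if i = j then d i else 0) + (if i = k then β ^ 2 * d i else 0) := by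
        intro i
        by_cases hij : i = j
        · have hik : i ≠ k := fun h => hjk (hij ▸ h)
          simp [hij, hjk]
        · by_cases hik : i = k
          · simp [hik, hjk.symm]
            ring
          · simp [hij, hik]
      rw [Finset.sum_congr rfl fun i _ => h2 i, Finset.sum_add_distrib]
      simp
    refine ⟨fun i => w i - (2 * (d j * w j) / (d j + β ^ 2 * d k)) *
      ((if i = j then 1 else 0) + (if i = k then β else 0)), ?_, ?_⟩
    · rw [gen, hsq, hsum (fun i => d i * w i), hwk]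
      field_simp
      ring
    · rw [genl, hsum l, hlj]
      refine neg_ne_zero.2 (mul_ne_zero (div_ne_zero (mul_ne_zero two_ne_zero (mul_ne_zero hj hwj))
        hβ) ?_)
      rw [zero_add]
      exact mul_ne_zero hlk hβ0

theorem AlgT.congr {Q : Set ℕ} {S S' : Set ℚ} (h : AlgT Q S') {F : Set ℚ} (hF : F.Finite)
    (hS : ∀ a, a ∉ F → (a ∈ S ↔ a ∈ S')) : AlgT Q S := by
  have e : S = (S' ∩ Fᶜ) ∪ (S ∩ F) := by
    ext a
    by_cases ha : a ∈ F
    · simp [ha]
    · simp [ha, hS a ha]
  rw [e]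
  exact AlgT.union (AlgT.inter _ _ h (AlgT.compl _ (AlgT.sparse _ (Sparse.of_finite hF))))
    (AlgT.sparse _ (Sparse.of_finite (hF.subset Set.inter_subset_right)))

theorem AlgT.univ (Q : Set ℕ) : AlgT Q Set.univ := by
  have h := AlgT.compl (Q := Q) _ (AlgT.sparse ∅ (Sparse.of_finite Set.finite_empty))
  rwa [Set.compl_empty] at h

/-- the family of the projective quadrics `∑ g i y i ^ 2 = 0` in the variables with `g i ≠ 0` -/
noncomputable def fam {N : ℕ} (g : Fin N → ℚ[X]) : Fin (N + 1) → MvPolynomial (Fin N) ℚ[X] :=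
  Fin.cons (∑ i, MvPolynomial.C (g i) * MvPolynomial.X i ^ 2)
    fun i => open Classical in if g i = 0 then MvPolynomial.X i else 0

theorem homog_fam {N : ℕ} (g : Fin N → ℚ[X]) : Homog (fam g) := by
  intro j
  refine Fin.cases ?_ (fun i => ?_) j
  · refine ⟨2, ?_⟩
    rw [fam, Fin.cons_zero]
    refine MvPolynomial.IsHomogeneous.sum _ _ _ fun i _ => ?_
    have h1 := (MvPolynomial.isHomogeneous_C (Fin N) (g i)).mul
      ((MvPolynomial.isHomogeneous_X ℚ[X] i).pow 2)
    simpa using h1
  · refine ⟨1, ?_⟩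
    rw [fam, Fin.cons_succ]
    split_ifs
    · exact MvPolynomial.isHomogeneous_X _ _
    · exact MvPolynomial.isHomogeneous_zero _ _ _

theorem hasPoint_fam {k : Type} [Field k] [Algebra ℚ k] {N : ℕ} (g : Fin N → ℚ[X]) (x : k) :
    HasPoint k (fam g) x ↔ ∃ y : Fin N → k, y ≠ 0 ∧ (∀ i, g i = 0 → y i = 0) ∧
      ∑ i, aeval x (g i) * y i ^ 2 = 0 := by
  classical
  unfold HasPoint
  refine exists_congr fun y => and_congr_right fun _ => ?_
  rw [Fin.forall_fin_succ, and_comm]
  refine and_congr ?_ ?_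
  · refine forall_congr' fun i => ?_
    rw [fam, Fin.cons_succ]
    by_cases h : g i = 0
    · simp [h]
    · simp [h]
  · rw [fam, Fin.cons_zero, MvPolynomial.eval₂_sum]
    simp only [MvPolynomial.eval₂_mul, MvPolynomial.eval₂_C, MvPolynomial.eval₂_pow,
      MvPolynomial.eval₂_X]
    rfl

end Pool.Agent.N230.TP
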