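import Pool.Agent.N230.TP.Quad

/-!
# All quadratic equations with coefficients depending on a parameter (helper230)
-/

set_option autoImplicit false

namespace Pool.Agent.N230.TP

open Polynomial Matrix Pool.Agent.TH766.HP

theorem sum_e {k : Type} [Field k] {N r : ℕ} (P : Fin N → Prop) (e : Fin r ≃ {i // P i})
    (f : Fin N → k) (hf : ∀ i, ¬ P i → f i = 0) : ∑ i, f (e i) = ∑ i, f i := by
  classical
  rw [e.sum_comp (fun i : {i // P i} => f i)]
  rw [← Finset.sum_subtype (Finset.univ.filter P) (fun i => by simp) f]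
  refine Finset.sum_filter_of_ne fun i _ hi => ?_
  by_contra hc
  exact hi (hf i hc)

/-- restriction to the variables with `g i ≠ 0` -/
theorem hasPoint_iff_isoD {k : Type} [Field k] [Algebra ℚ k] {N : ℕ} (g : Fin N → ℚ[X]) {r : ℕ}
    (e : Fin r ≃ {i // g i ≠ 0}) (x : k) :
    HasPoint k (fam g) x ↔ IsoD k (fun i => aeval x (g (e i))) := by
  classical
  rw [hasPoint_fam]
  constructor
  · rintro ⟨y, hy, hy0, hs⟩
    refine ⟨fun i => y (e i), ?_, ?_⟩
    · intro h
      apply hy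
      funext i
      by_cases hi : g i = 0
      · exact hy0 i hi
      · have := congrFun h (e.symm ⟨i, hi⟩)
        simpa using this
    · refine Eq.trans ?_ hs
      refine sum_e (fun i => g i ≠ 0) e (fun i => aeval x (g i) * y i ^ 2) fun i hi => ?_
      rw [not_not] at hi
      rw [hy0 i hi]
      ring
  · rintro ⟨z, hz, hs⟩
    have hy : ∀ i : Fin r, (fun i : Fin N => if h : g i ≠ 0 then z (e.symm ⟨i, h⟩) else 0) (e i) =
        z i := by
      intro i
      have h1 : g (e i) ≠ 0 := (e i).2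
      simp [h1]
    refine ⟨fun i => if h : g i ≠ 0 then z (e.symm ⟨i, h⟩) else 0, ?_, ?_, ?_⟩
    · intro h
      apply hz
      funext i
      rw [← hy i, h]
      rfl
    · intro i hi
      simp [hi]
    · refine Eq.trans ?_ hs
      rw [← sum_e (fun i => g i ≠ 0) e]
      · exact Finset.sum_congr rfl fun i _ => by rw [← hy i]
      · intro i hi
        rw [not_not] at hi
        simp [hi]

theorem hasseGen_fam {N : ℕ} (g : Fin N → ℚ[X]) : HasseGen (fam g) := by
  classical
  intro a b hb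
  refine ⟨a, b, hb, dvd_rfl, by simp, ?_⟩
  have hG : (∏ i, if g i = 0 then 1 else g i) ≠ 0 :=
    Finset.prod_ne_zero_iff.2 fun i _ => by
      split_ifs with h
      · exact one_ne_zero
      · exact h
  refine (Polynomial.finite_setOfPred_isRoot hG).subset ?_
  rintro x ⟨-, hx, hx'⟩
  by_contra hc
  apply hx'
  have hx0 : ∀ i, g i ≠ 0 → (g i).eval x ≠ 0 := by
    intro i hi h0
    apply hc
    show Polynomial.eval x _ = 0
    rw [Polynomial.eval_prod]
    exact Finset.prod_eq_zero (Finset.mem_univ i) (by simp [hi, h0])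
  let e : Fin (Fintype.card {i // g i ≠ 0}) ≃ {i // g i ≠ 0} := (Fintype.equivFin _).symm
  have h1 : ∀ (k : Type) [Field k] [CharZero k], ∀ i,
      aeval (x : k) (g (e i)) = (((g (e i)).eval x : ℚ) : k) := by
    intro k _ _ i
    have := Polynomial.aeval_algebraMap_apply k x (g (e i))
    rw [eq_ratCast, eq_ratCast] at this
    rw [this, Polynomial.coe_aeval_eq_eval]
  rw [hasPoint_iff_isoD g e]
  have h2 := hm_rat _ (fun i => (g (e i)).eval x) (fun i => hx0 _ (e i).2) (by
    have := (hasPoint_iff_isoD g e (x : ℝ)).1 hx.1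
    simpa only [h1 ℝ] using this) (fun p _ => by
    have := (hasPoint_iff_isoD g e (x : ℚ_[p])).1 (hx.2 p)
    simpa only [h1 ℚ_[p]] using this)
  simpa only [Polynomial.coe_aeval_eq_eval] using h2

/-- the solutions in terms of the diagonal form -/
theorem sol_iff {m : ℕ} (A P : Matrix (Fin (m + 1)) (Fin (m + 1)) ℚ) (d : Fin (m + 1) → ℚ)
    (hP : P.det ≠ 0) (hD : Pᵀ * A * P = Matrix.diagonal d) :
    (∃ y : Fin (m + 1) → ℚ, y 0 = 1 ∧ y ⬝ᵥ A *ᵥ y = 0) ↔
      ∃ w : Fin (m + 1) → ℚ, ∑ i, d i * w i ^ 2 = 0 ∧ ∑ i, P 0 i * w i ≠ 0 := by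
  have key : ∀ w : Fin (m + 1) → ℚ, (P *ᵥ w) ⬝ᵥ A *ᵥ (P *ᵥ w) = ∑ i, d i * w i ^ 2 := by
    intro w
    have h1 : (P *ᵥ w) ⬝ᵥ A *ᵥ (P *ᵥ w) = w ⬝ᵥ (Pᵀ * A * P) *ᵥ w := by
      rw [← Matrix.mulVec_mulVec, ← Matrix.mulVec_mulVec, Matrix.dotProduct_mulVec w Pᵀ,
        Matrix.vecMul_transpose]
    rw [h1, hD]
    simp only [dotProduct, Matrix.mulVec_diagonal]
    exact Finset.sum_congr rfl fun i _ => by ring
  constructor
  · rintro ⟨y, hy0, hy⟩
    have hu : IsUnit P.det := isUnit_iff_ne_zero.2 hP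
    refine ⟨P⁻¹ *ᵥ y, ?_, ?_⟩
    · rw [← key, Matrix.mulVec_mulVec, Matrix.mul_nonsing_inv P hu, Matrix.one_mulVec, hy]
    · have h1 : ∑ i, P 0 i * (P⁻¹ *ᵥ y) i = (P *ᵥ (P⁻¹ *ᵥ y)) 0 := rfl
      rw [h1, Matrix.mulVec_mulVec, Matrix.mul_nonsing_inv P hu, Matrix.one_mulVec, hy0]
      exact one_ne_zero
  · rintro ⟨w, hw, hw0⟩
    have h1 : (P *ᵥ w) 0 = ∑ i, P 0 i * w i := rfl
    refine ⟨(∑ i, P 0 i * w i)⁻¹ • (P *ᵥ w), ?_, ?_⟩
    · rw [Pi.smul_apply, h1, smul_eq_mul, inv_mul_cancel₀ hw0]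
    · rw [Matrix.mulVec_smul, smul_dotProduct, dotProduct_smul, key, hw, smul_zero, smul_zero]

/-- **Every quadratic equation with coefficients depending on `a` defines a set of the algebra.** -/
theorem quad_algT (Q : Set ℕ) {m : ℕ} (A : Matrix (Fin (m + 1)) (Fin (m + 1)) ℚ[X])
    (hA : A.IsSymm) :
    AlgT Q {a | ∃ y : Fin (m + 1) → ℚ, y 0 = 1 ∧ y ⬝ᵥ (A.map (Polynomial.eval a)) *ᵥ y = 0} := by
  classical
  obtain ⟨P, g, hP, hD⟩ := exists_diag_poly (m + 1) A hA
  set G : ℚ[X] := P.det * ((∏ i, if g i = 0 then 1 else g i) * ∏ i, if P 0 i = 0 then 1 else P 0 i)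
    with hG
  have hprod : ∀ f : Fin (m + 1) → ℚ[X], (∏ i, if f i = 0 then 1 else f i) ≠ 0 := fun f =>
    Finset.prod_ne_zero_iff.2 fun i _ => by
      split_ifs with h
      · exact one_ne_zero
      · exact h
  have hG0 : G ≠ 0 := mul_ne_zero hP (mul_ne_zero (hprod g) (hprod (P 0)))
  have hev : ∀ (f : Fin (m + 1) → ℚ[X]) (a : ℚ),
      (∏ i, if f i = 0 then 1 else f i : ℚ[X]).eval a ≠ 0 → ∀ i, f i ≠ 0 → (f i).eval a ≠ 0 := by
    intro f a h i hi h0
    apply h
    rw [Polynomial.eval_prod]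
    exact Finset.prod_eq_zero (Finset.mem_univ i) (by simp [hi, h0])
  have hfin := Polynomial.finite_setOfPred_isRoot hG0
  -- off the roots of `G`
  have hoff : ∀ a : ℚ, a ∉ {x | IsRoot G x} → (∀ i, g i ≠ 0 → (g i).eval a ≠ 0) ∧
      (∀ i, P 0 i ≠ 0 → (P 0 i).eval a ≠ 0) ∧
      ((∃ y : Fin (m + 1) → ℚ, y 0 = 1 ∧ y ⬝ᵥ (A.map (Polynomial.eval a)) *ᵥ y = 0) ↔
      ∃ w : Fin (m + 1) → ℚ, ∑ i, (g i).eval a * w i ^ 2 = 0 ∧ ∑ i, (P 0 i).eval a * w i ≠ 0) := by
    intro a ha
    have ha' : G.eval a ≠ 0 := ha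
    rw [hG, Polynomial.eval_mul, Polynomial.eval_mul] at ha'
    have h1 := (mul_ne_zero_iff.1 ha').1
    have h2 := (mul_ne_zero_iff.1 (mul_ne_zero_iff.1 ha').2).1
    have h3 := (mul_ne_zero_iff.1 (mul_ne_zero_iff.1 ha').2).2
    refine ⟨hev g a h2, hev (P 0) a h3, ?_⟩
    refine sol_iff _ (P.map (Polynomial.eval a)) _ ?_ ?_
    · have h4 := RingHom.map_det (Polynomial.evalRingHom a) P
      rw [Polynomial.coe_evalRingHom] at h4
      have h5 : (Polynomial.evalRingHom a).mapMatrix P = P.map (Polynomial.eval a) := rfl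
      rw [h5] at h4
      rw [← h4]
      exact h1
    · have h4 := congrArg (Polynomial.evalRingHom a).mapMatrix hD
      rw [map_mul, map_mul] at h4
      have h5 : (Polynomial.evalRingHom a).mapMatrix (Matrix.diagonal g) =
          Matrix.diagonal (fun i => (g i).eval a) := by
        rw [RingHom.mapMatrix_apply, Matrix.diagonal_map (map_zero _)]
        rfl
      rw [h5] at h4
      exact h4
  by_cases hc : ∃ i, g i = 0 ∧ P 0 i ≠ 0
  · obtain ⟨i, hgi, hPi⟩ := hc
    refine AlgT.congr (AlgT.univ Q) hfin fun a ha => ?_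
    obtain ⟨-, h2, h3⟩ := hoff a ha
    refine ⟨fun _ => Set.mem_univ _, fun _ => h3.2 ⟨Pi.single i 1, ?_, ?_⟩⟩
    · refine Finset.sum_eq_zero fun j _ => ?_
      by_cases hj : j = i
      · subst hj
        rw [hgi]
        simp
      · rw [Pi.single_eq_of_ne hj]
        ring
    · rw [Finset.sum_eq_single i]
      · rw [Pi.single_eq_same, mul_one]
        exact h2 i hPi
      · intro j _ hj
        rw [Pi.single_eq_of_ne hj, mul_zero]
      · intro h
        exact absurd (Finset.mem_univ i) h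
  · push Not at hc
    refine AlgT.congr (AlgT.family (fam g) (homog_fam g) (hasseGen_fam g)) hfin fun a ha => ?_
    obtain ⟨h1, h2, h3⟩ := hoff a ha
    refine h3.trans ?_
    show _ ↔ HasPoint ℚ (fam g) a
    rw [hasPoint_fam]
    simp only [Polynomial.coe_aeval_eq_eval]
    constructor
    · rintro ⟨w, hw, hw0⟩
      have e1 : ∑ i, (P 0 i).eval a * (if g i = 0 then 0 else w i) = ∑ i, (P 0 i).eval a * w i :=
        Finset.sum_congr rfl fun i _ => by
          split_ifs with h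
          · rw [hc i h]; simp
          · rfl
      refine ⟨fun i => if g i = 0 then 0 else w i, ?_, ?_, ?_⟩
      · intro h0
        apply hw0
        rw [← e1]
        exact Finset.sum_eq_zero fun i _ => by
          have := congrFun h0 i
          simp only [Pi.zero_apply] at this
          rw [this, mul_zero]
      · intro i hi
        simp [hi]
      · refine Eq.trans ?_ hw
        refine Finset.sum_congr rfl fun i _ => ?_
        by_cases h : g i = 0
        · simp [h]
        · simp [h]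
    · rintro ⟨y, hy, hy0, hs⟩
      obtain ⟨j, hj⟩ : ∃ j, y j ≠ 0 := by
        by_contra hcon
        push Not at hcon
        exact hy (funext hcon)
      have hgj : g j ≠ 0 := fun h => hj (hy0 j h)
      obtain ⟨k, hk⟩ : ∃ k, P 0 k ≠ 0 := by
        by_contra hcon
        push Not at hcon
        exact hP (Matrix.det_eq_zero_of_row_eq_zero 0 hcon)
      have hgk : g k ≠ 0 := fun h => hk (hc k h)
      exact move _ _ y hs (h1 j hgj) hj (h1 k hgk) (h2 k hk)

end Pool.Agent.N230.TP
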