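import Pool.Agent.N230.TP.OneQ
import Pool.Agent.N455.PR.Alg

/-!
# Formulas with algebraic witnesses: thin or cofinite (helper230)

The proof follows the proof by helper455 of `Pool.Agent.N455.PR.thin_alg` (the case of sets which are
contained in a flat set).
-/

set_option autoImplicit false

namespace Pool.Agent.N230.TP

open Polynomial
open Pool.Agent.TH783.CE (Thin Thin.mono Thin.of_finite Thin.union)
open Pool.Agent.N455.PR (tame_crv)

/-- **Formulas with algebraic witnesses.** -/
theorem dich_alg {n s : ℕ} (f : Fin s → MvPolynomial (Fin 2 ⊕ Fin n) ℚ)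
    (B : (Fin s → Prop) → Prop) (b : ℚ) (G : Fin n → ℚ[X][X]) (hG0 : ∀ i, G i ≠ 0)
    (hG : ∀ (a : ℚ) (w : Fin n → ℚ),
      B (fun i => MvPolynomial.eval (Sum.elim ![a, b] w) (f i) = 0) →
      ∀ i, (G i).evalEval a (w i) = 0) :
    Thin {a | ∃ w : Fin n → ℚ, B (fun i => MvPolynomial.eval (Sum.elim ![a, b] w) (f i) = 0)} ∨
      {a | ¬ ∃ w : Fin n → ℚ,
        B (fun i => MvPolynomial.eval (Sum.elim ![a, b] w) (f i) = 0)}.Finite := by
  classical
  have hroots : ∀ q : ℚ[X], q ≠ 0 → {a | q.eval a = 0}.Finite := by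
    intro q hq
    refine (q.roots.toFinset.finite_toSet).subset fun a ha => ?_
    rw [Finset.mem_coe, Multiset.mem_toFinset]
    exact (mem_roots hq).2 ha
  -- monic polynomials
  have hI : ∀ i, ∃ I : ℚ[X][X], I.Monic ∧ ∀ a w, (G i).leadingCoeff.eval a ≠ 0 →
      (G i).evalEval a w = 0 → I.evalEval a ((G i).leadingCoeff.eval a * w) = 0 := by
    intro i
    by_cases hd : 1 ≤ (G i).natDegree
    · refine ⟨integralNormalization (G i), monic_integralNormalization (hG0 i), fun a w ha hw => ?_⟩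
      have h1 := integralNormalization_eval₂_leadingCoeff_mul hd (evalRingHom a) w
      rw [eval₂_evalRingHom] at h1
      rw [coe_evalRingHom] at h1
      rw [h1, hw, mul_zero]
    · have hd0 : (G i).natDegree = 0 := by omega
      refine ⟨1, monic_one, fun a w ha hw => ?_⟩
      exfalso
      apply ha
      rw [← map_evalRingHom_eval, eval_map, eval₂_eq_sum_range, hd0] at hw
      simpa [leadingCoeff, hd0] using hw
  choose I hIm hI using hI
  choose H hH1 hH2 hH3 using fun i => exists_prod_multiset_X_sub_C_mul (I i)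
  have hHm : ∀ i, (H i).Monic := by
    intro i
    have h1 : (Multiset.map (fun a => X - C a) (I i).roots).prod.Monic :=
      monic_multiset_prod_of_monic _ _ fun a _ => monic_X_sub_C a
    exact h1.of_mul_monic_left (by rw [hH1 i]; exact hIm i)
  have hm : (∏ i, H i).Monic := monic_prod_of_monic _ _ fun i _ => hHm i
  have hr : ∀ g : ℚ[X], (∏ i, H i).eval g ≠ 0 := by
    intro g
    rw [eval_prod]
    refine Finset.prod_ne_zero_iff.2 fun i _ h => ?_
    have : g ∈ (H i).roots := (mem_roots (hHm i).ne_zero).2 h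
    rw [hH3 i] at this
    simp at this
  set c : ℚ[X] := ∏ i, (G i).leadingCoeff with hc
  have hc0 : c ≠ 0 := Finset.prod_ne_zero_iff.2 fun i _ => leadingCoeff_ne_zero.2 (hG0 i)
  -- the curves
  let hh : (∀ i : Fin n, {g // g ∈ (I i).roots.toFinset}) → Fin n → ℚ[X] := fun j i =>
    (j i).1 * ∏ l ∈ Finset.univ.erase i, (G l).leadingCoeff
  by_cases hcof : ∃ j : (∀ i : Fin n, {g // g ∈ (I i).roots.toFinset}),
      {a | ¬ (c.eval a ≠ 0 ∧ B (fun i => MvPolynomial.eval (Sum.elim ![a, b]
        (fun i => (hh j i).eval a / c.eval a)) (f i) = 0))}.Finite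
  · obtain ⟨j, hj⟩ := hcof
    right
    refine hj.subset fun a ha hc' => ha ⟨_, hc'.2⟩
  have hfin : (⋃ j : (∀ i : Fin n, {g // g ∈ (I i).roots.toFinset}),
      {a | c.eval a ≠ 0 ∧ B (fun i => MvPolynomial.eval (Sum.elim ![a, b]
        (fun i => (hh j i).eval a / c.eval a)) (f i) = 0)}).Finite := by
    refine Set.finite_iUnion fun j => ?_
    rcases tame_crv f B b c hc0 (hh j) with h1 | h1
    · exact h1
    · exact absurd ⟨j, h1⟩ hcof
  left
  refine (((Thin.of_finite (hroots c hc0)).union (Thin.of_finite hfin)).union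
    ⟨∅, Set.finite_empty, ∏ i, H i, hm, hr, fun t ht => Or.inr ht⟩).mono
    (D' := {a | ∃ w : Fin n → ℚ, B (fun i => MvPolynomial.eval (Sum.elim ![a, b] w) (f i) = 0)}) ?_
  rintro a ⟨w, hw⟩
  by_cases hca : c.eval a = 0
  · exact Or.inl (Or.inl hca)
  have hci : ∀ i, (G i).leadingCoeff.eval a ≠ 0 := by
    intro i h0
    apply hca
    rw [hc, eval_prod]
    exact Finset.prod_eq_zero (Finset.mem_univ i) h0
  by_cases hex : ∃ y : ℚ, (∏ i, H i).evalEval a y = 0
  · exact Or.inr hex
  left
  right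
  push Not at hex
  have hj : ∀ i : Fin n, ∃ g : {g // g ∈ (I i).roots.toFinset},
      (G i).leadingCoeff.eval a * w i = g.1.eval a := by
    intro i
    have h1 := hI i a (w i) (hci i) (hG a w hw i)
    rw [← hH1 i, evalEval_mul] at h1
    have h2 : (H i).evalEval a ((G i).leadingCoeff.eval a * w i) ≠ 0 := by
      intro h0
      apply hex ((G i).leadingCoeff.eval a * w i)
      rw [evalEval_prod]
      exact Finset.prod_eq_zero (Finset.mem_univ i) h0
    have h3 := (mul_eq_zero.1 h1).resolve_right h2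
    rw [← coe_evalEvalRingHom, map_multiset_prod, Multiset.map_map] at h3
    rw [Multiset.prod_eq_zero_iff, Multiset.mem_map] at h3
    obtain ⟨g, hg, hg'⟩ := h3
    refine ⟨⟨g, Multiset.mem_toFinset.2 hg⟩, ?_⟩
    simp only [Function.comp_apply, coe_evalEvalRingHom] at hg'
    have h4 : evalEval a ((G i).leadingCoeff.eval a * w i) (X - C g) =
        (G i).leadingCoeff.eval a * w i - g.eval a := by
      simp [evalEval]
    rw [h4] at hg'
    exact sub_eq_zero.1 hg'
  choose j hj using hj
  refine Set.mem_iUnion.2 ⟨j, hca, ?_⟩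
  have hw' : (fun i => (hh j i).eval a / c.eval a) = w := by
    funext i
    show ((j i).1 * ∏ l ∈ Finset.univ.erase i, (G l).leadingCoeff).eval a / c.eval a = w i
    rw [div_eq_iff hca, eval_mul, ← hj i, hc, ← Finset.mul_prod_erase _ _ (Finset.mem_univ i),
      eval_mul]
    ring
  rw [hw']
  exact hw

/-- one quantifier: polynomials in `a` and `w` -/
noncomputable def conv (b : ℚ) : MvPolynomial (Fin 2 ⊕ Fin 1) ℚ →+* ℚ[X][X] :=
  MvPolynomial.eval₂Hom (C.comp C) (Sum.elim ![C X, C (C b)] fun _ => X)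

theorem eval_conv (b a w : ℚ) (f : MvPolynomial (Fin 2 ⊕ Fin 1) ℚ) :
    (conv b f).evalEval a w = MvPolynomial.eval (Sum.elim ![a, b] fun _ => w) f := by
  have h : (evalEvalRingHom a w).comp (conv b) =
      MvPolynomial.eval (Sum.elim ![a, b] fun _ => w) := by
    refine MvPolynomial.ringHom_ext (fun r => ?_) (fun i => ?_)
    · simp [conv]
    · rcases i with i | i
      · fin_cases i
        · simp [conv]
        · simp [conv]
      · simp [conv]
  exact RingHom.congr_fun h f

/-- At most one quantifier, or witnesses which are algebraic over `ℚ(a)`. -/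
theorem dich_wit {c s : ℕ} (F : Fin s → MvPolynomial (Fin 2 ⊕ Fin c) ℚ)
    (B : (Fin s → Prop) → Prop) (b : ℚ)
    (h : c ≤ 1 ∨ ∀ l : Fin c, ∃ G : ℚ[X][X], G ≠ 0 ∧ ∀ (a : ℚ) (w : Fin c → ℚ),
      B (fun j => MvPolynomial.eval (Sum.elim ![a, b] w) (F j) = 0) → G.evalEval a (w l) = 0) :
    Thin {a | ∃ w : Fin c → ℚ, B (fun j => MvPolynomial.eval (Sum.elim ![a, b] w) (F j) = 0)} ∨
      {a | ¬ ∃ w : Fin c → ℚ,
        B (fun j => MvPolynomial.eval (Sum.elim ![a, b] w) (F j) = 0)}.Finite := by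
  rcases h with hc | h
  · obtain rfl | rfl : c = 0 ∨ c = 1 := by omega
    · exact dich_alg F B b (fun l => l.elim0) (fun l => l.elim0) (fun _ _ _ l => l.elim0)
    · have h1 := dich_oneQ (fun j => conv b (F j)) B
      have h2 : ∀ a : ℚ, (∃ w, B (fun j => (conv b (F j)).evalEval a w = 0)) ↔
          ∃ w : Fin 1 → ℚ, B (fun j => MvPolynomial.eval (Sum.elim ![a, b] w) (F j) = 0) := by
        intro a
        simp only [eval_conv]
        constructor
        · rintro ⟨w, hw⟩
          exact ⟨fun _ => w, hw⟩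
        · rintro ⟨w, hw⟩
          refine ⟨w 0, ?_⟩
          have : (fun _ : Fin 1 => w 0) = w := by
            funext i
            rw [Subsingleton.elim i 0]
          rw [this]
          exact hw
      simpa only [h2] using h1
  · choose G hG0 hG using h
    exact dich_alg F B b G hG0 (fun a w hw l => hG l a w hw)

theorem algT_wit (Q : Set ℕ) {c s : ℕ} (F : Fin s → MvPolynomial (Fin 2 ⊕ Fin c) ℚ)
    (B : (Fin s → Prop) → Prop) (b : ℚ)
    (h : c ≤ 1 ∨ ∀ l : Fin c, ∃ G : ℚ[X][X], G ≠ 0 ∧ ∀ (a : ℚ) (w : Fin c → ℚ),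
      B (fun j => MvPolynomial.eval (Sum.elim ![a, b] w) (F j) = 0) → G.evalEval a (w l) = 0) :
    AlgT Q {a | ∃ w : Fin c → ℚ,
      B (fun j => MvPolynomial.eval (Sum.elim ![a, b] w) (F j) = 0)} := by
  rcases dich_wit F B b h with h | h
  · exact AlgT.sparse _ (thin_sparse h)
  · exact AlgT.congr (AlgT.univ Q) h fun a ha => ⟨fun _ => Set.mem_univ _, fun _ => not_not.1 ha⟩

end Pool.Agent.N230.TP
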